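import Mathlib

/-!
# MP_a9f86a_ag: the fibrations of the minimal model program always factor the moduli map

`ModuliTheory` records facts about projective `ℚ`-factorial dlt pairs `(X, Δ)` with `Δ` reduced, the
steps of their minimal model programs and the moduli maps of smooth projective families of
canonically polarised manifolds: elementary facts, and the theorems of Viehweg-Zuo and
Campana-Păun. `FourfoldTheory` adds published facts about pairs of dimension at most four, and
Campana's core with Taji's theorem. Everything else is proved here.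
-/

set_option autoImplicit false

namespace Pool.Agent.Results.MP_a9f86a_ag.ModuliFactoring

open Relation

universe u

/-- Marked pairs, the steps of their minimal model programs, and moduli maps.

`V : Cls` is a function field (of an irreducible complex projective variety), `Model V` the type of
the projective `ℚ`-factorial dlt pairs `(X, Δ)`, `Δ` reduced, with function field `V`, `Fib V` the
type of the dominant rational maps `X ⇢ Z` with connected fibres, up to birational maps of `Z`, and
`Map V` the type of the rational maps from `X` to the coarse moduli scheme `𝔐` of canonically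
polarised manifolds. -/
structure ModuliTheory where
  Cls : Type u
  dim : Cls → ℕ
  Model : Cls → Type u
  Fib : Cls → Type u
  Map : Cls → Type u
  /-- `X` is smooth and `Δ` is a divisor with simple normal crossings -/
  LogSmooth : ∀ {V : Cls}, Model V → Prop
  /-- `X ⇢ X'` is the divisorial contraction or the flip of a `(K_X + Δ)`-negative extremal ray -/
  Step : ∀ {V : Cls}, Model V → Model V → Prop
  /-- `K_X + Δ` is nef -/
  Nef : ∀ {V : Cls}, Model V → Prop
  /-- `φ` is the contraction, of fibre type, of a `(K_X + Δ)`-negative extremal ray of `X` -/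
  Mori : ∀ {V : Cls}, Model V → Fib V → Prop
  /-- `K_X + Δ` is nef and semiample and `φ` is the fibration given by `|m (K_X + Δ)|` -/
  Kodaira : ∀ {V : Cls}, Model V → Fib V → Prop
  /-- `μ = ν ∘ φ` for some rational map `ν` from the target of `φ` to `𝔐` -/
  Factors : ∀ {V : Cls}, Map V → Fib V → Prop
  /-- the dimension of the image of `μ` -/
  var : ∀ {V : Cls}, Map V → ℕ
  /-- `(X, Δ)` is log smooth and `μ` is the moduli map of a smooth projective family of canonically
  polarised manifolds over `X ∖ Δ` -/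
  IsFam : ∀ {V : Cls}, Model V → Map V → Prop
  isFam_logSmooth : ∀ {V : Cls} (X : Model V) (μ : Map V), IsFam X μ → LogSmooth X
  /-- the moduli map of the constant family -/
  cst : ∀ V : Cls, Map V
  cst_fam : ∀ {V : Cls} (X : Model V), LogSmooth X → IsFam X (cst V)
  /-- cone theorem, contraction theorem and existence of flips -/
  cone : ∀ {V : Cls} (X : Model V), ¬ Nef X → (∃ X', Step X X') ∨ ∃ φ, Mori X φ
  /-- line bundles on `X` -/
  LB : ∀ {V : Cls}, Model V → Type u
  /-- the Iitaka dimension of a line bundle -/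
  iitaka : ∀ {V : Cls} {X : Model V}, LB X → WithBot ℕ
  /-- numerical classes of `ℝ`-divisors on `X` -/
  N : ∀ {V : Cls}, Model V → Type u
  [instN : ∀ {V : Cls} (X : Model V), AddCommGroup (N X)]
  [instM : ∀ {V : Cls} (X : Model V), Module ℝ (N X)]
  c1 : ∀ {V : Cls} {X : Model V}, LB X → N X
  /-- the pseudo-effective classes -/
  psef : ∀ {V : Cls} (X : Model V), Set (N X)
  /-- `ℚ`-divisors `B ≥ Δ` with simple normal crossings and coefficients at most one -/
  Bdry : ∀ {V : Cls}, Model V → Type u
  /-- `B = Δ` -/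
  self : ∀ {V : Cls} (X : Model V), Bdry X
  /-- the class of `K_X + B` -/
  adj : ∀ {V : Cls} {X : Model V}, Bdry X → N X
  /-- `L` is a subsheaf of the `m`-th tensor power of the orbifold cotangent sheaf `Ω¹(X, B)`, which
  is `Ω¹_X(log Δ)` for `B = Δ` -/
  Sub : ∀ {V : Cls} {X : Model V}, Bdry X → ℕ → LB X → Prop
  sub_mono : ∀ {V : Cls} {X : Model V} (B : Bdry X) (m : ℕ) (L : LB X), Sub (self X) m L → Sub B m L
  /-- birational morphisms `q : X → G` to normal projective varieties -/
  Contr : ∀ {V : Cls}, Model V → Type u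
  /-- the classes of the effective `q`-exceptional divisors -/
  exc : ∀ {V : Cls} {X : Model V}, Contr X → Set (N X)
  exc_psef : ∀ {V : Cls} {X : Model V} (q : Contr X), exc q ⊆ psef X
  /-- the intersection number with the strict transform of a general complete intersection curve of
  very ample divisors of `G` -/
  curve : ∀ {V : Cls} {X : Model V}, Contr X → N X →ₗ[ℝ] ℝ
  curve_psef : ∀ {V : Cls} {X : Model V} (q : Contr X) (x : N X), x ∈ psef X → 0 ≤ curve q x
  curve_exc : ∀ {V : Cls} {X : Model V} (q : Contr X) (x : N X), x ∈ exc q → curve q x = 0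
  curve_pos : ∀ {V : Cls} {X : Model V} (q : Contr X) (L : LB X), 1 ≤ iitaka L →
    0 < curve q (c1 L)
  /-- The general fibre `F` of a log resolution of a run `X ⇢ X'` over the base `Z` of the Kodaira
  fibre space `φ : X' → Z`, with `Δ_F` the preimage of `Δ_X`: `F` is birational to the general fibre
  `G` of `φ`, `K_F + Δ_F` is the pull-back of `K_G + Δ_G ≡ 0` plus an effective exceptional divisor,
  and if the restriction of the family to `F ∖ Δ_F` is isotrivial, then `φ` factors `μ`. -/
  fibre_kodaira : ∀ {V : Cls} (X X' : Model V) (μ : Map V) (φ : Fib V), IsFam X μ →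
    ReflTransGen Step X X' → Kodaira X' φ → ∃ (W : Cls) (F : Model W) (ν : Map W) (q : Contr F),
      IsFam F ν ∧ adj (self F) ∈ exc q ∧ (var ν = 0 → Factors μ φ)
  /-- The same for a Mori fibre space, where `-(K_G + Δ_G)` is ample; `B` is `Δ_F` plus `1/m` times
  the pull-back of a general member of `|-m (K_G + Δ_G)|`. -/
  fibre_mori : ∀ {V : Cls} (X X' : Model V) (μ : Map V) (φ : Fib V), IsFam X μ →
    ReflTransGen Step X X' → Mori X' φ → ∃ (W : Cls) (F : Model W) (ν : Map W) (q : Contr F)
      (B : Bdry F), IsFam F ν ∧ adj B ∈ exc q ∧ (var ν = 0 → Factors μ φ)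
  /-- Viehweg and Zuo (2002) -/
  viehweg_zuo : ∀ {V : Cls} (X : Model V) (μ : Map V), IsFam X μ → 1 ≤ var μ →
    ∃ (m : ℕ) (L : LB X), Sub (self X) m L ∧ (var μ : WithBot ℕ) ≤ iitaka L
  /-- Campana and Păun (2015, 2019): if `K_X + B` is pseudo-effective, the determinants of the
  quotients of `Ω¹(X, B)^{⊗ m}` are pseudo-effective -/
  campana_paun : ∀ {V : Cls} (X : Model V) (B : Bdry X) (m : ℕ) (L : LB X), LogSmooth X →
    adj B ∈ psef X → Sub B m L → ∃ c : ℝ, c • adj B - c1 L ∈ psef X

attribute [instance] ModuliTheory.instN ModuliTheory.instM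

/-- Further published facts, for pairs of dimension at most four. -/
structure FourfoldTheory extends ModuliTheory.{u} where
  /-- `K_X + Δ` is pseudo-effective -/
  Pseff : ∀ {V : Cls}, Model V → Prop
  /-- the Kodaira dimension of `K_X + Δ` -/
  kappa : ∀ {V : Cls}, Model V → WithBot ℕ
  kappa_step : ∀ {V : Cls} (X X' : Model V), Step X X' → kappa X' = kappa X
  /-- termination for pseudo-effective fourfolds (Moraga; Chen and Tsakanikas) -/
  termination : ∀ {V : Cls} (X : Model V), dim V = 4 → Pseff X →
    ¬ ∃ s : ℕ → Model V, s 0 = X ∧ ∀ i, Step (s i) (s (i + 1))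
  /-- Fukuda (2002): nef dlt fourfolds of positive Kodaira dimension are good -/
  abundance : ∀ {V : Cls} (X : Model V), dim V = 4 → Nef X → 1 ≤ kappa X → ∃ φ, Kodaira X φ
  /-- non-vanishing in dimension at most three -/
  nonvanishing : ∀ {V : Cls} (X : Model V), dim V ≤ 3 → Pseff X → 0 ≤ kappa X
  /-- Campana's core `X ⇢ C` with general fibre `F`, `b = dim C`: `F` is special, so that smooth
  families over `F ∖ Δ_F` are isotrivial (Taji) and `var μ ≤ b` for all families over `X ∖ Δ`; the
  orbifold base is of general type, so that `κ(X) ≥ κ(F) + b` if `κ(F) ≥ 0`. -/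
  core : ∀ {V : Cls} (X : Model V), LogSmooth X → ∃ (W : Cls) (F : Model W) (b : ℕ),
    dim V = dim W + b ∧ (Pseff X → Pseff F) ∧ (0 ≤ kappa F → (b : WithBot ℕ) ≤ kappa X) ∧
    ∀ μ : Map V, IsFam X μ → var μ ≤ b

variable (T : ModuliTheory.{u}) {V : T.Cls}

/-- The conclusion of **Q1** for the pair `X` and the moduli map `μ`: no run is infinite; each run
can be continued, or its last pair is a Kodaira or a Mori fibre space; and the fibrations of all
Kodaira and Mori fibre spaces which are reached by runs factor `μ` birationally. -/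
structure Good (μ : T.Map V) (X : T.Model V) : Prop where
  ends : ¬ ∃ s : ℕ → T.Model V, s 0 = X ∧ ∀ i, T.Step (s i) (s (i + 1))
  last : ∀ X', ReflTransGen T.Step X X' →
    (∃ X'', T.Step X' X'') ∨ (∃ φ, T.Kodaira X' φ) ∨ ∃ φ, T.Mori X' φ
  kodaira : ∀ X' φ, ReflTransGen T.Step X X' → T.Kodaira X' φ → T.Factors μ φ
  mori : ∀ X' φ, ReflTransGen T.Step X X' → T.Mori X' φ → T.Factors μ φ

/-- **Q1** for the compactified base `X = (Y, D)`: all families over `Y ∖ D`, all runs. -/
def Q1For (X : T.Model V) : Prop := ∀ μ : T.Map V, T.IsFam X μ → Good T μ X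

/-- **Q1** for all families over bases of dimension `n` -/
def Q1 (n : ℕ) : Prop := ∀ (V : T.Cls) (X : T.Model V), T.dim V = n → Q1For T X

/-- The minimal model conjecture for `X`: no run is infinite, and if a run from `X` ends with a pair
`X'` such that `K_X' + Δ'` is nef, then `K_X' + Δ'` is semiample. -/
structure MMP (X : T.Model V) : Prop where
  termination : ¬ ∃ s : ℕ → T.Model V, s 0 = X ∧ ∀ i, T.Step (s i) (s (i + 1))
  abundance : ∀ X', ReflTransGen T.Step X X' → (¬ ∃ X'', T.Step X' X'') → (¬ ∃ φ, T.Mori X' φ) →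
    ∃ φ, T.Kodaira X' φ

/-- A smooth family over the complement of the boundary of a pair with a log Calabi-Yau or log Fano
contraction is isotrivial. -/
theorem isotrivial {F : T.Model V} (ν : T.Map V) (q : T.Contr F) (B : T.Bdry F)
    (hν : T.IsFam F ν) (hB : T.adj B ∈ T.exc q) : T.var ν = 0 := by
  by_contra h
  obtain ⟨m, L, h1, h2⟩ := T.viehweg_zuo F ν hν (Nat.one_le_iff_ne_zero.2 h)
  obtain ⟨c, hc⟩ := T.campana_paun F B m L (T.isFam_logSmooth F ν hν) (T.exc_psef q hB)
    (T.sub_mono B m L h1)
  have h3 := T.curve_psef q _ hc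
  rw [map_sub, map_smul, T.curve_exc q _ hB, smul_zero, zero_sub] at h3
  have h4 : (1 : WithBot ℕ) ≤ T.iitaka L :=
    le_trans (by exact_mod_cast Nat.one_le_iff_ne_zero.2 h) h2
  linarith [T.curve_pos q L h4]

theorem factors_kodaira {X X' : T.Model V} {μ : T.Map V} {φ : T.Fib V} (hμ : T.IsFam X μ)
    (hX : ReflTransGen T.Step X X') (hφ : T.Kodaira X' φ) : T.Factors μ φ := by
  obtain ⟨W, F, ν, q, h1, h2, h3⟩ := T.fibre_kodaira X X' μ φ hμ hX hφ
  exact h3 (isotrivial T ν q (T.self F) h1 h2)

theorem factors_mori {X X' : T.Model V} {μ : T.Map V} {φ : T.Fib V} (hμ : T.IsFam X μ)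
    (hX : ReflTransGen T.Step X X') (hφ : T.Mori X' φ) : T.Factors μ φ := by
  obtain ⟨W, F, ν, q, B, h1, h2, h3⟩ := T.fibre_mori X X' μ φ hμ hX hφ
  exact h3 (isotrivial T ν q B h1 h2)

theorem good_of_mmp {X : T.Model V} {μ : T.Map V} (hμ : T.IsFam X μ) (h : MMP T X) :
    Good T μ X := by
  refine ⟨h.termination, fun X' h1 => ?_, fun X' φ h1 h2 => factors_kodaira T hμ h1 h2,
    fun X' φ h1 h2 => factors_mori T hμ h1 h2⟩
  by_cases h2 : ∃ X'', T.Step X' X''
  · exact Or.inl h2
  · by_cases h3 : ∃ φ, T.Mori X' φ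
    · exact Or.inr (Or.inr h3)
    · exact Or.inr (Or.inl (h.abundance X' h1 h2 h3))

theorem mmp_of_good {X : T.Model V} {μ : T.Map V} (h : Good T μ X) : MMP T X := by
  refine ⟨h.ends, fun X' h1 h2 h3 => ?_⟩
  rcases h.last X' h1 with h4 | h4 | h4
  · exact absurd h4 h2
  · exact h4
  · exact absurd h4 h3

theorem kappa_reach (T : FourfoldTheory.{u}) {V : T.Cls} {X X' : T.Model V}
    (h : ReflTransGen T.Step X X') : T.kappa X' = T.kappa X := by
  induction h with
  | refl => rfl
  | tail _ h ih => rw [T.kappa_step _ _ h, ih]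

/-- **Main theorem.** -/
theorem result :
    (∀ T : ModuliTheory.{u},
      (∀ (V : T.Cls) (X X' : T.Model V) (μ : T.Map V) (φ : T.Fib V), T.IsFam X μ →
        ReflTransGen T.Step X X' → T.Kodaira X' φ ∨ T.Mori X' φ → T.Factors μ φ) ∧
      (∀ (V : T.Cls) (X : T.Model V) (μ : T.Map V), T.IsFam X μ → (Good T μ X ↔ MMP T X)) ∧
      (∀ n : ℕ, Q1 T n ↔ ∀ (V : T.Cls) (X : T.Model V), T.dim V = n → T.LogSmooth X → MMP T X)) ∧
    (∀ T : FourfoldTheory.{u}, ∀ (V : T.Cls) (X : T.Model V), T.dim V = 4 → T.Pseff X →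
      T.LogSmooth X → (1 ≤ T.kappa X ∨ ∃ ν, T.IsFam X ν ∧ T.var ν ≠ 0) →
      Q1For T.toModuliTheory X) := by
  refine ⟨fun T => ⟨?_, ?_, ?_⟩, ?_⟩
  · rintro V X X' μ φ hμ h1 (h2 | h2)
    · exact factors_kodaira T hμ h1 h2
    · exact factors_mori T hμ h1 h2
  · exact fun V X μ hμ => ⟨mmp_of_good T, good_of_mmp T hμ⟩
  · exact fun n => ⟨fun h V X hd hX => mmp_of_good T (h V X hd (T.cst V) (T.cst_fam X hX)),
      fun h V X hd μ hμ => good_of_mmp T hμ (h V X hd (T.isFam_logSmooth X μ hμ))⟩
  · intro T V X hd hp hX h μ hμ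
    have hk : 1 ≤ T.kappa X := by
      rcases h with h | ⟨ν, h1, h2⟩
      · exact h
      · obtain ⟨W, F, b, hb, hF, hk, hv⟩ := T.core X hX
        have h3 : 1 ≤ b := (Nat.one_le_iff_ne_zero.2 h2).trans (hv ν h1)
        have h4 : (b : WithBot ℕ) ≤ T.kappa X := hk (T.nonvanishing F (by omega) (hF hp))
        exact le_trans (by exact_mod_cast h3) h4
    refine good_of_mmp T.toModuliTheory hμ ⟨T.termination X hd hp, fun X' h1 h2 h3 => ?_⟩
    refine T.abundance X' hd ?_ ?_
    · by_contra h4
      rcases T.cone X' h4 with h5 | h5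
      · exact h2 h5
      · exact h3 h5
    · rw [kappa_reach T h1]
      exact hk

end Pool.Agent.Results.MP_a9f86a_ag.ModuliFactoring
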