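import Mathlib

/-!
# MP_a9f86a_ag: fourfold bases

Theorem (`result`). Let `(Y, D)` be a projective log smooth fourfold with reduced boundary. Suppose

(A) `K_Y + D` is pseudo-effective, or `-(K_Y + D)` is numerically equivalent to an effective divisor,
or `D = 0`, or `π_1(Y ∖ D)` has a complex linear representation with infinite image, or `Y ∖ D`
carries a family of canonically polarised manifolds of variation one, or a nonisotrivial one which
extends to a smooth family over `Y`, and

(B) `K_Y + D` is not pseudo-effective, or `-(K_Y + D)` is numerically equivalent to an effective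
divisor, or the Kodaira dimension of `K_Y + D` is at least one, or `Y ∖ D` carries a nonisotrivial
family of canonically polarised manifolds, or a polarised variation of Hodge structure with infinite
monodromy, or some finite étale cover of `Y ∖ D` has positive irregularity, or `D = 0` and `π_1(Y)`
has a complex linear representation with infinite image.

Then **Q1** holds for `(Y, D)`: for all families over `Y ∖ D` and all runs.

The published facts used are recorded, one by one, in the structures `Germ`, `FlipTheory` (flips of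
klt fourfolds), `ModuliTheory` (moduli maps, Viehweg-Zuo, Campana-Păun) and `FourfoldTheory`.
Everything else is proved here. The first part (flips and pencils) repeats a part of our hand-in
`FlipsAndPencils` for MP_89a3f8_ag, the second (factoring) a part of `ModuliFactoring`.

Termination if `π_1(Y ∖ D)` has an infinite linear image: the flips of an infinite run are finally
disjoint from the boundary; the complements of the boundaries are klt, so their local fundamental
groups are finite (Braun), and (a cover of) the complement of one boundary has a morphism to a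
quasi-projective variety of positive dimension which contracts all subvarieties with finite
fundamental group; it is also a morphism on the later models and contracts all flipping rays
(`target`). So the members of a pencil are zero on all flipping rays, which is impossible
(`pencil`).
-/

set_option autoImplicit false

namespace Pool.Agent.Results.MP_a9f86a_ag.MonodromyFourfolds

open Relation

universe u

/-! ## Flips and pencils -/

/-- Let `X → B` be a morphism from a klt fourfold `(X, Δ)` to a smooth curve `B`, `s` a point of `B`,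
`φ : X → Z`, `φ⁺ : X⁺ → Z` a flip over `B` whose exceptional loci `C`, `C⁺` lie in the fibres `X_s`,
`X_s⁺`. `Y → X` is a log resolution such that `Y` and all strata of its exceptional and boundary
divisors are smooth over `B`. So `(X, X_s + Δ)` is plt, hence also `(X⁺, X_s⁺ + Δ⁺)`, and `X_s`,
`X_s⁺` are normal. `z` is the image of a two-dimensional component of `C`, if this is a point. The
morphism `X → B` need not be proper. -/
structure Germ where
  /-- the dimension of `C` -/
  a : ℕ
  /-- the dimension of `C⁺` -/
  e : ℕ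
  /-- the dimension of `φ(C) = φ⁺(C⁺)` -/
  m : ℕ
  /-- `φ` is small -/
  exc_le : a ≤ 2
  /-- `φ⁺` is small -/
  plus_le : e ≤ 2
  /-- Kawamata, Matsuda, Matsuki 1987, 5-1-17: `dim C + dim C⁺ ≥ dim X - 1` -/
  kmm : 3 ≤ a + e
  /-- the fibres of `C⁺ → φ(C)` have positive dimension (Zariski's main theorem) -/
  image_lt : m + 1 ≤ e
  /-- the divisors over `X_s` with centre in `C`; these are those over `X_s⁺` with centre in `C⁺`,
  as `φ(C) = φ⁺(C⁺)` -/
  Val : Type
  /-- the log discrepancy with respect to `X_s` -/
  ld : Val → ℝ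
  /-- the log discrepancy with respect to `X_s⁺` -/
  ldPlus : Val → ℝ
  /-- the minimum is attained, since `(X_s, Δ_s)` is klt -/
  ld_min : ∀ _ : Val, ∃ v, ∀ w, ld v ≤ ld w
  /-- the negativity lemma -/
  ld_lt : ∀ v, ld v < ldPlus v
  /-- if `C⁺` contains a prime divisor of the threefold `X_s⁺`, its log discrepancy is at most one -/
  divisor : e = 2 → ∃ v, ldPlus v ≤ 1
  /-- the divisors over `X` which dominate `B` and whose restriction to the strict transform of `X_s`
  in some log resolution contains an element of `Val` -/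
  Hor : Type
  /-- their log discrepancy with respect to `X`, and to `X⁺` (these agree outside `X_s`) -/
  ldHor : Hor → ℝ
  /-- a divisor over `X_s` with log discrepancy less than one is toroidal with respect to the log
  resolution `Y_s → X_s` (all others have log discrepancy at least one), so it is the restriction of
  a divisor over `X`, with the same log discrepancy -/
  toroidal : ∀ v, ld v < 1 → ∃ F, ldHor F = ld v
  /-- Let `N` be the normalisation of the image of `F` in `Z` in the function field of `F`. The strata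
  of `Y` are smooth over `B`, so the fibre over `s` of a toroidal model of `F` is normal, and its
  components have disjoint images in `N` (Stein factorisation); these are the components of `N_s`. One
  of the components of the fibre is in `Val`; let `N_0` be its image, which lies over `φ(C)` (so `F`
  is exceptional over `X`: otherwise `dim N_0 = 2`). Let `V → X⁺` extract exactly `F` (Birkar, Cascini,
  Hacon, McKernan 2010, as the log discrepancy is less than one), let `w` be a component of `F ∩ V_s`
  which dominates `N_0`, and `k` its multiplicity. The centre of `w` is in `C⁺`. The fibre `V_s` is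
  Cartier and normal, since `(X⁺, X_s⁺ + Δ⁺)` is plt, so `V` is regular at `w`, and by adjunction the
  coefficient of `w` in the different is at least `k (1 - ldHor F)`. -/
  adjunction : ∀ F, ldHor F < 1 → ∃ (w : Val) (k : ℕ), 1 ≤ k ∧
    ldPlus w ≤ 1 - k * (1 - ldHor F)
  /-- the two-dimensional components of the fibre of `Y_s → Z_s` over `z` -/
  SurfS : Type
  /-- for `u` near `s`, `u ≠ s`, the surfaces in `Y_u` over a small ball around `z` which are
  contracted to points of `X_u = Z_u` -/
  SurfU : Type
  finS : Fintype SurfS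
  finU : Fintype SurfU
  /-- the fourth Betti number of `Y_s` over a small ball around `z` -/
  bettiS : ℕ
  /-- the fourth Betti number of `Y_u` over the same ball -/
  bettiU : ℕ
  /-- Ehresmann 1951: `Y → B` is locally trivial over the ball -/
  ehresmann : bettiS = bettiU
  /-- `Y_s` over the ball retracts onto the fibre over `z`, which has dimension at most two -/
  retract : bettiS = Fintype.card SurfS
  /-- the dimensions of the groups `E_2^(p,q) = H^p(Z_u, R^q)` of the Leray spectral sequence of
  `Y_u → Z_u` over the ball -/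
  E : ℕ → ℕ → ℕ
  /-- the dimension of the support of the sheaf `R^q` -/
  suppDim : ℕ → ℕ
  /-- Leray 1946 -/
  leray : bettiU ≤ ∑ p ∈ Finset.range 5, E p (4 - p)
  /-- the vanishing theorem on Stein spaces (Andreotti, Frankel 1959; Artin 1973) -/
  artin : ∀ p q, suppDim q < p → E p q = 0
  supp_zero : suppDim 0 ≤ 3
  /-- `R^q` lives where the fibres of the birational map `Y_u → Z_u` have dimension `≥ q / 2` -/
  supp_pos : ∀ q, 1 ≤ q → suppDim q ≤ 1
  supp_three : ∀ q, 3 ≤ q → suppDim q = 0
  /-- the stalks of `R^4` are spanned by the surfaces in the fibres -/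
  stalk_four : E 0 4 = Fintype.card SurfU
  /-- the dimension of the image in `X_s` -/
  dimIm : SurfS → ℕ
  /-- a contracted surface of `Y_u` is the fibre over `u` of an exceptional divisor which is smooth
  over `B`; its specialisation is a component of the fibre over `z` and is contracted to a point of
  `X_s` -/
  specialise : ∃ σ : SurfU → SurfS, Function.Injective σ ∧ ∀ F, dimIm (σ F) = 0
  /-- the strict transform of a surface of `C` contracted to `z` -/
  strict : a = 2 → m = 0 → ∃ F, dimIm F = 2

/-- `C⁺` contains no divisor of `X_s⁺`: a divisor of minimal log discrepancy over `C` would extend to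
a divisor over `X`, and its restriction to `X_s⁺` has smaller log discrepancy. -/
theorem Germ.plus_lt (σ : Germ) : σ.e ≤ 1 := by
  by_contra hcon
  have he : σ.e = 2 := by
    have := σ.plus_le
    omega
  obtain ⟨v0, hv0⟩ := σ.divisor he
  obtain ⟨v, hv⟩ := σ.ld_min v0
  have h1 : σ.ld v < 1 := ((hv v0).trans_lt (σ.ld_lt v0)).trans_le hv0
  obtain ⟨F, hF⟩ := σ.toroidal v h1
  obtain ⟨w, k, hk, hw⟩ := σ.adjunction F (hF ▸ h1)
  rw [hF] at hw
  have h2 : σ.ld v < σ.ldPlus w := (hv w).trans_lt (σ.ld_lt w)
  have hk' : (1 : ℝ) ≤ k := by exact_mod_cast hk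
  nlinarith

/-- **Rigidity lemma**: there is no such germ. -/
theorem Germ.elim (σ : Germ) : False := by
  have h0 := σ.plus_lt
  have h1 := σ.exc_le
  have h2 := σ.kmm
  have h6 := σ.image_lt
  have ha : σ.a = 2 := by omega
  have hm : σ.m = 0 := by omega
  obtain ⟨τ, hτ, h0⟩ := σ.specialise
  obtain ⟨F, hF⟩ := σ.strict ha hm
  let := σ.finS
  let := σ.finU
  have hlt : Fintype.card σ.SurfU < Fintype.card σ.SurfS := by
    refine Fintype.card_lt_of_injective_of_notMem τ hτ (b := F) ?_
    rintro ⟨G, hG⟩
    have := h0 G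
    rw [hG, hF] at this
    omega
  have hU : σ.bettiU ≤ Fintype.card σ.SurfU := by
    have hle := σ.leray
    have e1 : σ.E 1 3 = 0 := σ.artin 1 3 (by have := σ.supp_three 3 le_rfl; omega)
    have e2 : σ.E 2 2 = 0 := σ.artin 2 2 (by have := σ.supp_pos 2 (by omega); omega)
    have e3 : σ.E 3 1 = 0 := σ.artin 3 1 (by have := σ.supp_pos 1 le_rfl; omega)
    have e4 : σ.E 4 0 = 0 := σ.artin 4 0 (by have := σ.supp_zero; omega)
    have e0 := σ.stalk_four
    simp only [Finset.sum_range_succ, Finset.sum_range_zero] at hle
    norm_num at hle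
    omega
  have h7 := σ.ehresmann
  have h8 := σ.retract
  omega

/-- the ascending chain condition -/
def ACC (A : Set ℝ) : Prop := ¬ ∃ t : ℕ → ℝ, StrictMono t ∧ ∀ n, t n ∈ A

/-- Q-factorial klt pairs `(X, Δ)` of dimension four, projective over a normal quasi-projective
variety `S`, which may be a point, over the complex numbers, and their flips. -/
structure FlipTheory where
  /-- the pairs -/
  Pair : Type
  /-- the points of `X` -/
  Pt : Pair → Type
  /-- the flips over `S` -/
  Flip : Pair → Pair → Type
  /-- the exceptional locus `C` of `φ` -/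
  exc : ∀ {P P' : Pair}, Flip P P' → Set (Pt P)
  exc_nonempty : ∀ {P P' : Pair} (f : Flip P P'), (exc f).Nonempty
  /-- the effective divisors `D` all of whose components have coefficients at least one in `Δ + D`,
  for example the integral effective divisors, together with their transforms on the other models.
  (Formally: the pairs are marked by their function fields, and `D` is a family of such divisors on
  all pairs over `S`, compatible with isomorphisms in codimension one, with coefficients in a set
  with the descending chain condition.) -/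
  Div : Type
  /-- `(K + Δ + D) · R < 0` for the flipping ray `R` -/
  Neg : ∀ {P P' : Pair}, Flip P P' → Div → Prop
  /-- the support of `D` on `X` -/
  supp : ∀ P, Div → Set (Pt P)
  /-- the log canonical threshold at `x` of `D` with respect to `(X, Δ)` -/
  lct : ∀ P, Div → Pt P → WithTop ℝ
  /-- `(X, Δ)` is klt -/
  lct_pos : ∀ P D x, 0 < lct P D x
  /-- the coefficient of a component of `D` in `Δ + D` is at least one -/
  lct_le_one : ∀ P D, ∀ x ∈ supp P D, lct P D x ≤ 1
  /-- the local threshold is a constructible function -/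
  lct_finite : ∀ P D, (Set.range (lct P D)).Finite
  /-- `X` and `X⁺` are isomorphic outside `C` and `C⁺`; if `(K + Δ + D) · R < 0` then
  `(K + Δ + t D) · R < 0` for `0 ≤ t ≤ 1`, so by the negativity lemma the local threshold at a point
  of `C⁺` is at least the one at some point of `C` -/
  lct_flip : ∀ {P P' : Pair} (f : Flip P P') (D : Div) (_ : Neg f D) (y : Pt P'),
    (∃ x, lct P D x = lct P' D y) ∨ ∃ x ∈ exc f, lct P D x ≤ lct P' D y
  /-- the coefficients of `Δ` -/
  coeff : Pair → Set ℝ
  coeff_finite : ∀ P, (coeff P).Finite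
  coeff_flip : ∀ {P P' : Pair}, Flip P P' → coeff P' = coeff P
  /-- the ascending chain condition for log canonical thresholds (Hacon, McKernan, Xu 2014) -/
  acc : ∀ I : Set ℝ, I.Finite → ∀ D : Div, ACC {t : ℝ | ∃ P, coeff P = I ∧ ∃ x, lct P D x = t}
  /-- special termination in dimension four (Shokurov 2003; Fujino 2007; for log canonical pairs
  Birkar 2007), which uses termination in dimension three: if the flips are also flips for
  `K + Δ_i + t D`, and `(X_i, Δ_i + t D)` is log canonical near the exceptional loci, then these are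
  finally disjoint from its non-klt locus. The statement is local on the `X_i`: the pairs need not be
  log canonical elsewhere (restrict to the open sets where they are, or use a Q-factorial dlt
  modification). -/
  special : ∀ (P : ℕ → Pair) (f : ∀ i, Flip (P i) (P (i + 1))) (D : Div) (t : ℝ), 0 ≤ t → t ≤ 1 →
    (∀ i, Neg (f i) D) → (∀ i, ∀ x ∈ exc (f i), (t : WithTop ℝ) ≤ lct (P i) D x) →
    ∃ N, ∀ i ≥ N, ∀ x ∈ exc (f i), (t : WithTop ℝ) < lct (P i) D x
  /-- the pencils, given by two linearly independent sections `s`, `s'` of a divisor `E` -/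
  Pencil : Type
  /-- the parameters in the projective line; `none` is the point at infinity -/
  mem : Pencil → Option ℂ → Div
  /-- the members are linearly equivalent -/
  neg_mem : ∀ {P P' : Pair} (f : Flip P P') (L : Pencil) (τ τ' : Option ℂ),
    Neg f (mem L τ) → Neg f (mem L τ')
  /-- the base locus: the points which lie in all members -/
  base : Pencil → ∀ P, Set (Pt P)
  /-- the value of `s' / s` at a point outside the base locus -/
  val : Pencil → ∀ P, Pt P → Option ℂ
  mem_supp : ∀ (L : Pencil) P (τ : Option ℂ) (x : Pt P),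
    x ∈ supp P (mem L τ) ↔ x ∈ base L P ∨ val L P x = τ
  /-- the image of `C` under the morphism `s' / s` is constructible (Chevalley) -/
  chevalley : ∀ {P P' : Pair} (f : Flip P P') (L : Pencil), Disjoint (exc f) (base L P) →
    (val L P '' exc f).Finite ∨ (val L P '' exc f)ᶜ.Finite
  /-- the parameters `τ` such that `s' / s : X → ℙ¹`, outside the base locus, has a simultaneous log
  resolution over a neighbourhood of `τ`, as in `Germ` -/
  good : Pencil → Pair → Set (Option ℂ)
  /-- Hironaka 1964 and generic smoothness -/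
  good_cofinite : ∀ L P, (good L P)ᶜ.Finite
  /-- `X` and `X⁺` are isomorphic outside `C` and `C⁺` -/
  good_flip : ∀ {P P' : Pair} (f : Flip P P') (L : Pencil), Disjoint (exc f) (base L P) →
    (val L P '' exc f).Finite → Disjoint (val L P '' exc f) (good L P) → good L P ⊆ good L P'
  /-- the flip near the fibre of `s' / s` over a good parameter `τ` -/
  germ : ∀ {P P' : Pair} (f : Flip P P') (L : Pencil), Disjoint (exc f) (base L P) →
    (val L P '' exc f).Finite → (val L P '' exc f ∩ good L P).Nonempty → Nonempty Germ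

section

variable (T : FlipTheory)

/-! ### Flipping loci which meet an effective divisor -/

/-- one step of the argument with thresholds -/
theorem raise (P : ℕ → T.Pair) (f : ∀ i, T.Flip (P i) (P (i + 1))) (D : T.Div)
    (hD : ∀ i, T.Neg (f i) D)
    (hinf : ∀ N, ∃ i ≥ N, (T.exc (f i) ∩ T.supp (P i) D).Nonempty) (t : ℝ) (ht : 0 ≤ t)
    (ht1 : t ≤ 1) (N : ℕ) (h : ∀ i ≥ N, ∀ x ∈ T.exc (f i), (t : WithTop ℝ) ≤ T.lct (P i) D x) :
    ∃ t' : ℝ, t < t' ∧ t' ≤ 1 ∧ (∃ i x, T.lct (P i) D x = t') ∧
      ∃ N', ∀ i ≥ N', ∀ x ∈ T.exc (f i), (t' : WithTop ℝ) ≤ T.lct (P i) D x := by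
  obtain ⟨M, hM⟩ := T.special (fun i => P (N + i)) (fun i => f (N + i)) D t ht ht1
    (fun i => hD (N + i)) (fun i => h (N + i) (Nat.le_add_right N i))
  obtain ⟨N', hN', x0, hx0, hx0'⟩ := hinf (N + M)
  have h1 : ∀ i ≥ N', ∀ x ∈ T.exc (f i), (t : WithTop ℝ) < T.lct (P i) D x := by
    intro i hi
    obtain ⟨j, rfl⟩ := Nat.exists_eq_add_of_le (le_trans (le_trans (Nat.le_add_right N M) hN') hi)
    exact hM j (by omega)
  have hfin : {v | v ∈ Set.range (T.lct (P N') D) ∧ (t : WithTop ℝ) < v}.Finite :=
    (T.lct_finite (P N') D).subset fun v hv => hv.1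
  have hne : {v | v ∈ Set.range (T.lct (P N') D) ∧ (t : WithTop ℝ) < v}.Nonempty :=
    ⟨_, ⟨x0, rfl⟩, h1 N' le_rfl x0 hx0⟩
  obtain ⟨v, ⟨⟨xv, hxv⟩, htv⟩, hmin⟩ := Set.exists_min_image _ id hfin hne
  have hv1 : v ≤ 1 := (hmin _ ⟨⟨x0, rfl⟩, h1 N' le_rfl x0 hx0⟩).trans (T.lct_le_one _ _ _ hx0')
  have hvtop : v ≠ ⊤ := by
    rintro rfl
    exact absurd hv1 (not_le.2 (WithTop.coe_lt_top (1 : ℝ)))
  obtain ⟨t', rfl⟩ := WithTop.ne_top_iff_exists.1 hvtop
  have hprop : ∀ i ≥ N', ∀ y : T.Pt (P i),
      T.lct (P i) D y ≤ (t : WithTop ℝ) ∨ (t' : WithTop ℝ) ≤ T.lct (P i) D y := by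
    intro i hi
    induction i, hi using Nat.le_induction with
    | base =>
      intro y
      rcases le_or_gt (T.lct (P N') D y) (t : WithTop ℝ) with hy | hy
      · exact Or.inl hy
      · exact Or.inr (hmin _ ⟨⟨y, rfl⟩, hy⟩)
    | succ i hi ih =>
      intro y
      rcases T.lct_flip (f i) D (hD i) y with ⟨x, hx⟩ | ⟨x, hx, hxy⟩
      · rw [← hx]
        exact ih x
      · right
        refine le_trans ?_ hxy
        rcases ih x with h2 | h2
        · exact absurd (h1 i hi x hx) (not_lt.2 h2)
        · exact h2
  refine ⟨t', WithTop.coe_lt_coe.1 htv, by exact_mod_cast hv1, ⟨N', xv, hxv⟩, N', ?_⟩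
  intro i hi x hx
  rcases hprop i hi x with h2 | h2
  · exact absurd (h1 i hi x hx) (not_lt.2 h2)
  · exact h2

theorem coeff_const (P : ℕ → T.Pair) (f : ∀ i, T.Flip (P i) (P (i + 1))) (i : ℕ) :
    T.coeff (P i) = T.coeff (P 0) := by
  induction i with
  | zero => rfl
  | succ i ih => exact (T.coeff_flip (f i)).trans ih

/-- if `D` is effective and `(K + Δ_i + D_i) · R_i < 0` for all `i` then only finitely many flipping
loci meet the support of `D` -/
theorem finite_meet (P : ℕ → T.Pair) (f : ∀ i, T.Flip (P i) (P (i + 1))) (D : T.Div)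
    (hD : ∀ i, T.Neg (f i) D) :
    ∃ N, ∀ i ≥ N, Disjoint (T.exc (f i)) (T.supp (P i) D) := by
  by_contra hcon
  have hinf : ∀ N, ∃ i ≥ N, (T.exc (f i) ∩ T.supp (P i) D).Nonempty := by
    intro N
    by_contra hN
    refine hcon ⟨N, fun i hi => ?_⟩
    rw [Set.disjoint_iff_inter_eq_empty]
    by_contra hne
    exact hN ⟨i, hi, Set.nonempty_iff_ne_empty.2 hne⟩
  let A := {q : ℝ × ℕ // (0 ≤ q.1 ∧ q.1 ≤ 1) ∧
    ∀ i ≥ q.2, ∀ x ∈ T.exc (f i), (q.1 : WithTop ℝ) ≤ T.lct (P i) D x}
  have step : ∀ q : A, ∃ q' : A, q.1.1 < q'.1.1 ∧ ∃ i x, T.lct (P i) D x = q'.1.1 := by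
    rintro ⟨⟨t, N⟩, ht, hN⟩
    obtain ⟨t', h1, h1', h2, N', h3⟩ := raise T P f D hD hinf t ht.1 ht.2 N hN
    exact ⟨⟨⟨t', N'⟩, ⟨ht.1.trans h1.le, h1'⟩, h3⟩, h1, h2⟩
  choose g hg1 hg2 using step
  let q0 : A := ⟨⟨0, 0⟩, ⟨le_rfl, zero_le_one⟩, fun i _ x _ => (T.lct_pos (P i) D x).le⟩
  refine T.acc (T.coeff (P 0)) (T.coeff_finite _) D ⟨fun n => (g^[n + 1] q0).1.1, ?_, ?_⟩
  · refine strictMono_nat_of_lt_succ fun n => ?_
    rw [Function.iterate_succ_apply' g (n + 1) q0]
    exact hg1 _
  · intro n
    obtain ⟨i, x, hx⟩ := hg2 (g^[n] q0)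
    rw [← Function.iterate_succ_apply' g n q0] at hx
    exact ⟨P i, coeff_const T P f i, x, hx⟩

/-! ### Pencils -/

/-- `(K + Δ + E) · R < 0` for the divisor class `E` of the pencil -/
def NegOn {P P' : T.Pair} (f : T.Flip P P') (L : T.Pencil) : Prop :=
  T.Neg f (T.mem L none)

theorem NegOn.mem {P P' : T.Pair} {f : T.Flip P P'} {L : T.Pencil} (h : NegOn T f L)
    (τ : Option ℂ) : T.Neg f (T.mem L τ) :=
  T.neg_mem f L none τ h

/-- every member meets only finitely many flipping loci -/
theorem finite_member (P : ℕ → T.Pair) (f : ∀ i, T.Flip (P i) (P (i + 1))) (L : T.Pencil)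
    (hL : ∀ i, NegOn T (f i) L) (τ : Option ℂ) :
    ∃ N, ∀ i ≥ N, Disjoint (T.exc (f i)) (T.base L (P i)) ∧ τ ∉ T.val L (P i) '' T.exc (f i) := by
  obtain ⟨N, hN⟩ := finite_meet T P f (T.mem L τ) fun i => (hL i).mem T τ
  refine ⟨N, fun i hi => ⟨?_, ?_⟩⟩
  · rw [Set.disjoint_left]
    intro x hx hx'
    exact Set.disjoint_left.1 (hN i hi) hx ((T.mem_supp L _ τ x).2 (Or.inl hx'))
  · rintro ⟨x, hx, hx'⟩
    exact Set.disjoint_left.1 (hN i hi) hx ((T.mem_supp L _ τ x).2 (Or.inr hx'))

/-- the flipping loci finally lie in finitely many members each -/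
theorem finite_image (P : ℕ → T.Pair) (f : ∀ i, T.Flip (P i) (P (i + 1))) (L : T.Pencil)
    (hL : ∀ i, NegOn T (f i) L) :
    ∃ N, ∀ i ≥ N, Disjoint (T.exc (f i)) (T.base L (P i)) ∧
      (T.val L (P i) '' T.exc (f i)).Finite := by
  obtain ⟨N0, hN0⟩ := finite_member T P f L hL none
  by_contra hcon
  push Not at hcon
  -- the parameters which some cofinite image misses
  let B : Set (Option ℂ) := ⋃ i ∈ {i | (T.val L (P i) '' T.exc (f i))ᶜ.Finite},
    (T.val L (P i) '' T.exc (f i))ᶜ
  have hB : B.Countable := Set.Countable.biUnion (Set.to_countable _) fun i hi => hi.countable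
  have hne : ∃ τ, τ ∉ B := by
    by_contra hall
    push Not at hall
    have huniv : B = Set.univ := Set.eq_univ_of_forall hall
    rw [huniv, Set.countable_univ_iff] at hB
    have hC : Countable ℂ := Function.Injective.countable (Option.some_injective ℂ)
    exact not_countable_complex Set.countable_univ
  obtain ⟨τ, hτ⟩ := hne
  obtain ⟨N1, hN1⟩ := finite_member T P f L hL τ
  obtain ⟨i, hi, hi'⟩ := hcon (max N0 N1)
  have hd := (hN0 i (le_trans (le_max_left _ _) hi)).1
  rcases T.chevalley (f i) L hd with h | h
  · exact hi' hd h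
  · apply hτ
    exact Set.mem_biUnion (show i ∈ {i | (T.val L (P i) '' T.exc (f i))ᶜ.Finite} from h)
      (hN1 i (le_trans (le_max_right _ _) hi)).2

/-- **Theorem** (dimension four, any base): a sequence of flips with `(K + Δ_i + E_i) · R_i < 0` for
all large `i`, where `E` has two linearly independent sections, is finite. -/
theorem pencil (P : ℕ → T.Pair) (f : ∀ i, T.Flip (P i) (P (i + 1))) (L : T.Pencil) (N : ℕ)
    (hL : ∀ i ≥ N, NegOn T (f i) L) : False := by
  obtain ⟨M, hM⟩ := finite_image T (fun i => P (N + i)) (fun i => f (N + i)) L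
    fun i => hL (N + i) (Nat.le_add_right N i)
  let Q : ℕ → T.Pair := fun i => P (N + (M + i))
  let g : ∀ i, T.Flip (Q i) (Q (i + 1)) := fun i => f (N + (M + i))
  have hg : ∀ i, NegOn T (g i) L := fun i => hL (N + (M + i)) (Nat.le_add_right _ _)
  have hd : ∀ i, Disjoint (T.exc (g i)) (T.base L (Q i)) ∧
      (T.val L (Q i) '' T.exc (g i)).Finite := fun i => hM (M + i) (Nat.le_add_right M i)
  have hgood : ∀ i, Disjoint (T.val L (Q i) '' T.exc (g i)) (T.good L (Q i)) := by
    intro i
    by_contra hne
    rw [Set.disjoint_iff_inter_eq_empty, ← Ne, ← Set.nonempty_iff_ne_empty] at hne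
    obtain ⟨σ⟩ := T.germ (g i) L (hd i).1 (hd i).2 hne
    exact σ.elim
  have hmono : ∀ i, T.good L (Q 0) ⊆ T.good L (Q i) := by
    intro i
    induction i with
    | zero => exact subset_rfl
    | succ i ih => exact ih.trans (T.good_flip (g i) L (hd i).1 (hd i).2 (hgood i))
  have hfin := T.good_cofinite L (Q 0)
  choose n hn using fun τ => finite_member T Q g L hg τ
  obtain ⟨K, hK⟩ : ∃ K, ∀ τ ∈ (T.good L (Q 0))ᶜ, n τ ≤ K := by
    obtain ⟨K, hK⟩ := (hfin.image n).bddAbove
    exact ⟨K, fun τ hτ => hK ⟨τ, hτ, rfl⟩⟩
  obtain ⟨x, hx⟩ := T.exc_nonempty (g K)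
  have h1 : T.val L (Q K) x ∈ (T.good L (Q 0))ᶜ := fun h2 =>
    Set.disjoint_left.1 (hgood K) ⟨x, hx, rfl⟩ (hmono K h2)
  exact (hn _ K (hK _ h1)).2 ⟨x, hx, rfl⟩

end

/-! ## Moduli maps -/

/-- Marked pairs, the steps of their minimal model programs, and moduli maps.

`V : Cls` is a function field (of an irreducible complex projective variety), `Model V` the type of
the projective `ℚ`-factorial dlt pairs `(X, Δ)`, `Δ` reduced, with function field `V`, `Fib V` the
type of the dominant rational maps `X ⇢ Z` with connected fibres, up to birational maps of `Z`, and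
`Map V` the type of the rational maps from `X` to the coarse moduli scheme `𝔐` of canonically
polarised manifolds. -/
structure ModuliTheory where
  Cls : Type u
  dim : Cls → ℕ
  Model : Cls → Type u
  Fib : Cls → Type u
  Map : Cls → Type u
  /-- `X` is smooth and `Δ` is a divisor with simple normal crossings -/
  LogSmooth : ∀ {V : Cls}, Model V → Prop
  /-- `X ⇢ X'` is the divisorial contraction or the flip of a `(K_X + Δ)`-negative extremal ray -/
  Step : ∀ {V : Cls}, Model V → Model V → Prop
  /-- `K_X + Δ` is nef -/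
  Nef : ∀ {V : Cls}, Model V → Prop
  /-- `φ` is the contraction, of fibre type, of a `(K_X + Δ)`-negative extremal ray of `X` -/
  Mori : ∀ {V : Cls}, Model V → Fib V → Prop
  /-- `K_X + Δ` is nef and semiample and `φ` is the fibration given by `|m (K_X + Δ)|` -/
  Kodaira : ∀ {V : Cls}, Model V → Fib V → Prop
  /-- `μ = ν ∘ φ` for some rational map `ν` from the target of `φ` to `𝔐` -/
  Factors : ∀ {V : Cls}, Map V → Fib V → Prop
  /-- the dimension of the image of `μ` -/
  var : ∀ {V : Cls}, Map V → ℕ
  /-- `(X, Δ)` is log smooth and `μ` is the moduli map of a smooth projective family of canonically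
  polarised manifolds over `X ∖ Δ` -/
  IsFam : ∀ {V : Cls}, Model V → Map V → Prop
  isFam_logSmooth : ∀ {V : Cls} (X : Model V) (μ : Map V), IsFam X μ → LogSmooth X
  /-- the moduli map of the constant family -/
  cst : ∀ V : Cls, Map V
  cst_fam : ∀ {V : Cls} (X : Model V), LogSmooth X → IsFam X (cst V)
  /-- cone theorem, contraction theorem and existence of flips -/
  cone : ∀ {V : Cls} (X : Model V), ¬ Nef X → (∃ X', Step X X') ∨ ∃ φ, Mori X φ
  /-- line bundles on `X` -/
  LB : ∀ {V : Cls}, Model V → Type u
  /-- the Iitaka dimension of a line bundle -/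
  iitaka : ∀ {V : Cls} {X : Model V}, LB X → WithBot ℕ
  /-- numerical classes of `ℝ`-divisors on `X` -/
  N : ∀ {V : Cls}, Model V → Type u
  [instN : ∀ {V : Cls} (X : Model V), AddCommGroup (N X)]
  [instM : ∀ {V : Cls} (X : Model V), Module ℝ (N X)]
  c1 : ∀ {V : Cls} {X : Model V}, LB X → N X
  /-- the pseudo-effective classes -/
  psef : ∀ {V : Cls} (X : Model V), Set (N X)
  /-- `ℚ`-divisors `B ≥ Δ` with simple normal crossings and coefficients at most one -/
  Bdry : ∀ {V : Cls}, Model V → Type u
  /-- `B = Δ` -/
  self : ∀ {V : Cls} (X : Model V), Bdry X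
  /-- the class of `K_X + B` -/
  adj : ∀ {V : Cls} {X : Model V}, Bdry X → N X
  /-- `L` is a subsheaf of the `m`-th tensor power of the orbifold cotangent sheaf `Ω¹(X, B)`, which
  is `Ω¹_X(log Δ)` for `B = Δ` -/
  Sub : ∀ {V : Cls} {X : Model V}, Bdry X → ℕ → LB X → Prop
  sub_mono : ∀ {V : Cls} {X : Model V} (B : Bdry X) (m : ℕ) (L : LB X), Sub (self X) m L → Sub B m L
  /-- birational morphisms `q : X → G` to normal projective varieties -/
  Contr : ∀ {V : Cls}, Model V → Type u
  /-- the classes of the effective `q`-exceptional divisors -/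
  exc : ∀ {V : Cls} {X : Model V}, Contr X → Set (N X)
  exc_psef : ∀ {V : Cls} {X : Model V} (q : Contr X), exc q ⊆ psef X
  /-- the intersection number with the strict transform of a general complete intersection curve of
  very ample divisors of `G` -/
  curve : ∀ {V : Cls} {X : Model V}, Contr X → N X →ₗ[ℝ] ℝ
  curve_psef : ∀ {V : Cls} {X : Model V} (q : Contr X) (x : N X), x ∈ psef X → 0 ≤ curve q x
  curve_exc : ∀ {V : Cls} {X : Model V} (q : Contr X) (x : N X), x ∈ exc q → curve q x = 0
  curve_pos : ∀ {V : Cls} {X : Model V} (q : Contr X) (L : LB X), 1 ≤ iitaka L →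
    0 < curve q (c1 L)
  /-- The general fibre `F` of a log resolution of a run `X ⇢ X'` over the base `Z` of the Kodaira
  fibre space `φ : X' → Z`, with `Δ_F` the preimage of `Δ_X`: `F` is birational to the general fibre
  `G` of `φ`, `K_F + Δ_F` is the pull-back of `K_G + Δ_G ≡ 0` plus an effective exceptional divisor,
  and if the restriction of the family to `F ∖ Δ_F` is isotrivial, then `φ` factors `μ`. -/
  fibre_kodaira : ∀ {V : Cls} (X X' : Model V) (μ : Map V) (φ : Fib V), IsFam X μ →
    ReflTransGen Step X X' → Kodaira X' φ → ∃ (W : Cls) (F : Model W) (ν : Map W) (q : Contr F),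
      IsFam F ν ∧ adj (self F) ∈ exc q ∧ (var ν = 0 → Factors μ φ)
  /-- The same for a Mori fibre space, where `-(K_G + Δ_G)` is ample; `B` is `Δ_F` plus `1/m` times
  the pull-back of a general member of `|-m (K_G + Δ_G)|`. -/
  fibre_mori : ∀ {V : Cls} (X X' : Model V) (μ : Map V) (φ : Fib V), IsFam X μ →
    ReflTransGen Step X X' → Mori X' φ → ∃ (W : Cls) (F : Model W) (ν : Map W) (q : Contr F)
      (B : Bdry F), IsFam F ν ∧ adj B ∈ exc q ∧ (var ν = 0 → Factors μ φ)
  /-- Viehweg and Zuo (2002) -/
  viehweg_zuo : ∀ {V : Cls} (X : Model V) (μ : Map V), IsFam X μ → 1 ≤ var μ →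
    ∃ (m : ℕ) (L : LB X), Sub (self X) m L ∧ (var μ : WithBot ℕ) ≤ iitaka L
  /-- Campana and Păun (2015, 2019): if `K_X + B` is pseudo-effective, the determinants of the
  quotients of `Ω¹(X, B)^{⊗ m}` are pseudo-effective -/
  campana_paun : ∀ {V : Cls} (X : Model V) (B : Bdry X) (m : ℕ) (L : LB X), LogSmooth X →
    adj B ∈ psef X → Sub B m L → ∃ c : ℝ, c • adj B - c1 L ∈ psef X

attribute [instance] ModuliTheory.instN ModuliTheory.instM

section

variable (T : ModuliTheory.{u}) {V : T.Cls}

/-- The conclusion of **Q1** for the pair `X` and the moduli map `μ`: no run is infinite; each run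
can be continued, or its last pair is a Kodaira or a Mori fibre space; and the fibrations of all
Kodaira and Mori fibre spaces which are reached by runs factor `μ` birationally. -/
structure Good (μ : T.Map V) (X : T.Model V) : Prop where
  ends : ¬ ∃ s : ℕ → T.Model V, s 0 = X ∧ ∀ i, T.Step (s i) (s (i + 1))
  last : ∀ X', ReflTransGen T.Step X X' →
    (∃ X'', T.Step X' X'') ∨ (∃ φ, T.Kodaira X' φ) ∨ ∃ φ, T.Mori X' φ
  kodaira : ∀ X' φ, ReflTransGen T.Step X X' → T.Kodaira X' φ → T.Factors μ φ
  mori : ∀ X' φ, ReflTransGen T.Step X X' → T.Mori X' φ → T.Factors μ φ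

/-- **Q1** for the compactified base `X = (Y, D)`: all families over `Y ∖ D`, all runs. -/
def Q1For (X : T.Model V) : Prop := ∀ μ : T.Map V, T.IsFam X μ → Good T μ X

/-- No run is infinite, and if a run from `X` ends with a pair
`X'` such that `K_X' + Δ'` is nef, then `K_X' + Δ'` is semiample. -/
structure MMP (X : T.Model V) : Prop where
  termination : ¬ ∃ s : ℕ → T.Model V, s 0 = X ∧ ∀ i, T.Step (s i) (s (i + 1))
  abundance : ∀ X', ReflTransGen T.Step X X' → (¬ ∃ X'', T.Step X' X'') → (¬ ∃ φ, T.Mori X' φ) →
    ∃ φ, T.Kodaira X' φ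

/-- A smooth family over the complement of the boundary of a pair with a log Calabi-Yau or log Fano
contraction is isotrivial. -/
theorem isotrivial {F : T.Model V} (ν : T.Map V) (q : T.Contr F) (B : T.Bdry F)
    (hν : T.IsFam F ν) (hB : T.adj B ∈ T.exc q) : T.var ν = 0 := by
  by_contra h
  obtain ⟨m, L, h1, h2⟩ := T.viehweg_zuo F ν hν (Nat.one_le_iff_ne_zero.2 h)
  obtain ⟨c, hc⟩ := T.campana_paun F B m L (T.isFam_logSmooth F ν hν) (T.exc_psef q hB)
    (T.sub_mono B m L h1)
  have h3 := T.curve_psef q _ hc
  rw [map_sub, map_smul, T.curve_exc q _ hB, smul_zero, zero_sub] at h3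
  have h4 : (1 : WithBot ℕ) ≤ T.iitaka L :=
    le_trans (by exact_mod_cast Nat.one_le_iff_ne_zero.2 h) h2
  linarith [T.curve_pos q L h4]

theorem factors_kodaira {X X' : T.Model V} {μ : T.Map V} {φ : T.Fib V} (hμ : T.IsFam X μ)
    (hX : ReflTransGen T.Step X X') (hφ : T.Kodaira X' φ) : T.Factors μ φ := by
  obtain ⟨W, F, ν, q, h1, h2, h3⟩ := T.fibre_kodaira X X' μ φ hμ hX hφ
  exact h3 (isotrivial T ν q (T.self F) h1 h2)

theorem factors_mori {X X' : T.Model V} {μ : T.Map V} {φ : T.Fib V} (hμ : T.IsFam X μ)
    (hX : ReflTransGen T.Step X X') (hφ : T.Mori X' φ) : T.Factors μ φ := by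
  obtain ⟨W, F, ν, q, B, h1, h2, h3⟩ := T.fibre_mori X X' μ φ hμ hX hφ
  exact h3 (isotrivial T ν q B h1 h2)

theorem good_of_mmp {X : T.Model V} {μ : T.Map V} (hμ : T.IsFam X μ) (h : MMP T X) :
    Good T μ X := by
  refine ⟨h.termination, fun X' h1 => ?_, fun X' φ h1 h2 => factors_kodaira T hμ h1 h2,
    fun X' φ h1 h2 => factors_mori T hμ h1 h2⟩
  by_cases h2 : ∃ X'', T.Step X' X''
  · exact Or.inl h2
  · by_cases h3 : ∃ φ, T.Mori X' φ
    · exact Or.inr (Or.inr h3)
    · exact Or.inr (Or.inl (h.abundance X' h1 h2 h3))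

end

/-! ## Fourfold bases -/

/-- Published facts about projective `ℚ`-factorial dlt pairs `(X, Δ)`, `Δ` reduced, of dimension at
most four. The pairs of `flips` are the projective `ℚ`-factorial klt pairs of dimension four, over a
point, marked by their function fields. For a flip `f` the contractions are `φ : X → Z`,
`φ⁺ : X⁺ → Z`, and `C` is the exceptional locus of `φ`. -/
structure FourfoldTheory extends ModuliTheory.{u} where
  /-- `K_X + Δ` is pseudo-effective -/
  Pseff : ∀ {V : Cls}, Model V → Prop
  nef_pseff : ∀ {V : Cls} (X : Model V), Nef X → Pseff X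
  pseff_step : ∀ {V : Cls} (X X' : Model V), Step X X' → Pseff X' → Pseff X
  /-- the Kodaira dimension of `K_X + Δ` -/
  kappa : ∀ {V : Cls}, Model V → WithBot ℕ
  kappa_step : ∀ {V : Cls} (X X' : Model V), Step X X' → kappa X' = kappa X
  /-- `Δ = 0` -/
  Zero : ∀ {V : Cls}, Model V → Prop
  /-- `-(K_X + Δ)` is numerically equivalent to an effective divisor -/
  Anti : ∀ {V : Cls}, Model V → Prop
  /-- `K_X + Δ` is numerically trivial -/
  Triv : ∀ {V : Cls}, Model V → Prop
  /-- termination for pseudo-effective fourfolds (Moraga 2018; Chen, Tsakanikas 2023) -/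
  moraga : ∀ {V : Cls} (X : Model V), dim V = 4 → Pseff X →
    ¬ ∃ s : ℕ → Model V, s 0 = X ∧ ∀ i, Step (s i) (s (i + 1))
  /-- termination for terminal fourfolds (Kawamata, Matsuda, Matsuki 1987, 5-1-15) -/
  kmm : ∀ {V : Cls} (X : Model V), dim V = 4 → LogSmooth X → Zero X →
    ¬ ∃ s : ℕ → Model V, s 0 = X ∧ ∀ i, Step (s i) (s (i + 1))
  /-- termination if `-(K_X + Δ)` is effective (Alexeev, Hacon, Kawamata 2007, after special
  termination; the flips which are disjoint from the boundary are flips for `(X, Δ / 2)`) -/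
  ahk : ∀ {V : Cls} (X : Model V), dim V = 4 → Anti X →
    ¬ ∃ s : ℕ → Model V, s 0 = X ∧ ∀ i, Step (s i) (s (i + 1))
  anti_pseff : ∀ {V : Cls} (X : Model V), Anti X → Pseff X → Triv X
  /-- a numerically trivial divisor is zero on all extremal rays -/
  triv_step : ∀ {V : Cls} (X X' : Model V), Triv X → ¬ Step X X'
  /-- numerically trivial log canonical divisors are torsion (Gongyo 2013) -/
  gongyo : ∀ {V : Cls} (X : Model V), Triv X → ∃ φ, Kodaira X φ
  /-- Fukuda (2002): nef dlt fourfolds of positive Kodaira dimension are good -/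
  fukuda : ∀ {V : Cls} (X : Model V), dim V = 4 → Nef X → 1 ≤ kappa X → ∃ φ, Kodaira X φ
  /-- non-vanishing in dimension at most three -/
  nonvanishing : ∀ {V : Cls} (X : Model V), dim V ≤ 3 → Pseff X → 0 ≤ kappa X
  /-- some finite étale cover of `X ∖ Δ` has a smooth compactification of positive irregularity -/
  Irr : ∀ {V : Cls}, Model V → Prop
  /-- The Albanese map of the compactification has fibres of dimension at most three, for which
  abundance is known, so `K_X + Δ` is abundant (Hu 2016; `Δ = 0`: Lai 2011; Birkar, Chen 2015); nef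
  and log abundant divisors `K_X' + Δ'` are semiample (Fujino, Gongyo 2014). -/
  hu : ∀ {V : Cls} (X X' : Model V), dim V = 4 → LogSmooth X → Irr X → Pseff X →
    ReflTransGen Step X X' → Nef X' → ∃ φ, Kodaira X' φ
  /-- the complex linear representations of `π_1(X ∖ Δ)` -/
  Rep : ∀ {V : Cls}, Model V → Type
  /-- the image is infinite -/
  Inf : ∀ {V : Cls} {X : Model V}, Rep X → Prop
  /-- the representation is the monodromy of a polarised `ℤ`-variation of Hodge structure -/
  Hodge : ∀ {V : Cls} {X : Model V}, Rep X → Prop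
  /-- Campana's core `X ⇢ C` with general fibre `F`, `b = dim C`: `F` is special, so that smooth
  families over `F ∖ Δ_F` are isotrivial (Taji 2016) and `var μ ≤ b` for all families over `X ∖ Δ`;
  the orbifold base is of general type, so that `κ(X) ≥ κ(F) + b` if `κ(F) ≥ 0`. If `b = 0` then
  `X ∖ Δ` is special, so polarised variations of Hodge structure over it have finite monodromy
  (Brunebarbe, Cadorel 2020; Cadorel, Deng, Yamanoi 2022); if also `Δ = 0` then linear
  representations of `π_1(X)` have virtually abelian images (Campana, Claudon, Eyssidieux 2015). -/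
  core : ∀ {V : Cls} (X : Model V), LogSmooth X → ∃ (W : Cls) (F : Model W) (b : ℕ),
    dim V = dim W + b ∧ (Pseff X → Pseff F) ∧ (0 ≤ kappa F → (b : WithBot ℕ) ≤ kappa X) ∧
    (∀ μ : Map V, IsFam X μ → var μ ≤ b) ∧ (∀ ρ : Rep X, Hodge ρ → Inf ρ → 1 ≤ b) ∧
    (Zero X → ∀ ρ : Rep X, Inf ρ → 1 ≤ b ∨ Irr X)
  /-- the flips of klt fourfolds -/
  flips : FlipTheory
  /-- `X ⇢ X'` is a flip of fourfolds whose exceptional loci are disjoint from `Δ` and `Δ'`, and `f`
  is this flip for the klt pairs `(X, Δ / 2)` and `(X', Δ' / 2)` -/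
  Off : ∀ {V : Cls} (_ _ : Model V) {P P' : flips.Pair}, flips.Flip P P' → Prop
  /-- An infinite run contains only finitely many divisorial contractions, and by special
  termination (Shokurov 2003; Fujino 2007) finally the exceptional loci of the flips are disjoint
  from the boundaries. -/
  special : ∀ {V : Cls} (s : ℕ → Model V), dim V = 4 → (∀ i, Step (s i) (s (i + 1))) →
    ∃ (N : ℕ) (P : ℕ → flips.Pair) (f : ∀ i, flips.Flip (P i) (P (i + 1))),
      ∀ i, Off (s (N + i)) (s (N + i + 1)) (f i)
  /-- dominant rational maps `Ψ` to projective varieties `S` of positive dimension -/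
  Target : Cls → Type
  /-- the rational map `Ψ : X ⇢ S` is defined near `C` and contracts the curves of the flipping
  ray -/
  Over : ∀ {V : Cls}, Target V → ∀ {P P' : flips.Pair}, flips.Flip P P' → Prop
  /-- the pencil of the pull-backs of the members of a pencil of hyperplane sections of `S`: near `C`
  these are pull-backs of Cartier divisors, which are zero on the flipping ray -/
  hyperplanes : ∀ {V : Cls} (Ψ : Target V), ∃ L : flips.Pencil,
    ∀ {P P' : flips.Pair} (f : flips.Flip P P'), Over Ψ f → flips.Neg f (flips.mem L none)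
  /-- The smooth quasi-projective varieties `W` with a proper birational morphism `W → Y`, where `Y` is
  normal and `Y → X ∖ Δ` is a finite Galois cover which is étale in codimension one. -/
  Res : ∀ {V : Cls}, Model V → Type
  /-- `π_1(W)` has a complex linear representation with infinite image -/
  InfPi : ∀ {V : Cls} {X : Model V}, Res X → Prop
  /-- Selberg 1960: there is a finite Galois cover of `X`, étale over `X ∖ Δ`, over which the image of
  the representation is torsion free. Let `X ⇢ X'` be a run, and `Y` the normalisation of `X' ∖ Δ'` in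
  the function field of the cover. As `X ⇢ X'` extracts no divisor and `Δ'` is the image of `Δ`, the
  variety `Y` is étale over an open subset of `X ∖ Δ`, and over `X' ∖ Δ'`, outside a closed subset of
  codimension two; so it is klt. By Braun 2021 the local fundamental groups of its smooth locus are
  finite, so they have trivial images, and the local system extends to `Y` and its resolutions. -/
  braun : ∀ {V : Cls} (X X' : Model V) (ρ : Rep X), LogSmooth X → Inf ρ →
    ReflTransGen Step X X' → ∃ W : Res X', InfPi W
  /-- `W → X ⇢ S` is a morphism, and contracts all closed irreducible subvarieties of `W` such that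
  the fundamental group of the normalisation has finite image in `π_1(W)` -/
  Contracts : ∀ {V : Cls} {X : Model V}, Res X → Target V → Prop
  /-- If `π_1(W)` has a linear representation with infinite image then a finite étale cover of `W` has
  a nonconstant morphism of this kind to a quasi-projective variety: the quasi-Albanese morphism if
  some subgroup of finite index has infinite abelianisation; otherwise there is a semisimple
  representation which is unbounded over some `p`-adic field, or is the monodromy of a polarised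
  `ℤ`-variation of Hodge structure (Simpson 1992; Mochizuki 2006), and the morphism is the reduction
  map of Cadorel, Deng, Yamanoi 2022, or the period map, with quasi-projective image by Bakker,
  Brunebarbe, Tsimerman 2023. Covers of `W` come from covers of `Y` (Takayama 2003); pass to a
  Galois cover, to the product of the conjugates, and to the quotient of its image. -/
  fibration : ∀ {V : Cls} (X : Model V) (W : Res X), InfPi W → ∃ (W' : Res X) (Ψ : Target V),
    Contracts W' Ψ
  /-- The covers of `X ∖ Δ` and of `X' ∖ Δ'` agree, `W'` has proper birational morphisms to `W` and to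
  the cover of `X' ∖ Δ'`, and its fundamental group is that of `W`. -/
  common : ∀ {V : Cls} (X X' : Model V) (W : Res X) (Ψ : Target V) {P P' : flips.Pair}
    (f : flips.Flip P P'), Contracts W Ψ → Off X X' f → ∃ W' : Res X', Contracts W' Ψ
  /-- The connected components of the fibres of `W → Y` and of `W → Y → Z` have simply connected
  neighbourhoods (Kollár 1993; Takayama 2003); here `X → Z` is the contraction, and `Y` and `Z` are
  klt. So `Ψ` is a morphism on `X ∖ Δ` and contracts the curves of the flipping ray. -/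
  takayama : ∀ {V : Cls} (X X' : Model V) (W : Res X) (Ψ : Target V) {P P' : flips.Pair}
    (f : flips.Flip P P'), Contracts W Ψ → Off X X' f → Over Ψ f
  /-- If the variation is one then `X ∖ Δ` maps to a one-dimensional Deligne-Mumford stack which
  carries a nonisotrivial family. Its orbifold is hyperbolic, since families over `ℂ` are isotrivial
  (Viehweg, Zuo 2003), so its fundamental group has an infinite linear image, and a subgroup of
  finite index of `π_1(X ∖ Δ)` maps onto a subgroup of finite index. -/
  orbifold : ∀ {V : Cls} (X : Model V) (μ : Map V), IsFam X μ → var μ = 1 → ∃ ρ : Rep X, Inf ρ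
  /-- the family over `X ∖ Δ` extends to a smooth family of canonically polarised manifolds over
  `X` -/
  Ext : ∀ {V : Cls}, Model V → Map V → Prop
  /-- for all birational morphisms `W → X` from smooth projective varieties such that `W ⇢ S` is a
  morphism, it contracts all rational curves of `W` -/
  NoRat : ∀ {V : Cls}, Model V → Target V → Prop
  /-- families over the projective line are isotrivial (Kovács 2000; Viehweg, Zuo 2001); `Ψ` is the
  moduli map to its image -/
  kovacs : ∀ {V : Cls} (X : Model V) (μ : Map V), IsFam X μ → Ext X μ → var μ ≠ 0 →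
    ∃ Ψ : Target V, NoRat X Ψ
  /-- Hacon and McKernan (2007): for a common resolution `W` of `X` and `X'` the fibres of `W → Z` are
  rationally chain connected -/
  hacon_mckernan : ∀ {V : Cls} (X X' X'' : Model V) (Ψ : Target V) {P P' : flips.Pair}
    (f : flips.Flip P P'), NoRat X Ψ → ReflTransGen Step X X' → Off X' X'' f → Over Ψ f

/-- Condition (A): `K_X + Δ` is pseudo-effective, or `-(K_X + Δ)` is numerically equivalent to an
effective divisor, or `Δ = 0`, or `π_1(X ∖ Δ)` has a complex linear representation with infinite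
image, or there is a family over `X ∖ Δ` of variation one, or a nonisotrivial one which extends to a
smooth family over `X`. -/
def CondA (T : FourfoldTheory.{u}) {V : T.Cls} (X : T.Model V) : Prop :=
  T.Pseff X ∨ T.Anti X ∨ T.Zero X ∨ (∃ ρ : T.Rep X, T.Inf ρ) ∨
    ∃ μ, T.IsFam X μ ∧ (T.var μ = 1 ∨ T.Ext X μ ∧ T.var μ ≠ 0)

/-- Condition (B): `K_X + Δ` is not pseudo-effective, or `-(K_X + Δ)` is numerically equivalent to an
effective divisor, or the Kodaira dimension of `K_X + Δ` is at least one, or there is a nonisotrivial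
family or a polarised variation of Hodge structure with infinite monodromy over `X ∖ Δ`, or some
finite étale cover of `X ∖ Δ` has positive irregularity, or `Δ = 0` and `π_1(X)` has a complex linear
representation with infinite image. -/
def CondB (T : FourfoldTheory.{u}) {V : T.Cls} (X : T.Model V) : Prop :=
  ¬ T.Pseff X ∨ T.Anti X ∨ 1 ≤ T.kappa X ∨ (∃ μ, T.IsFam X μ ∧ T.var μ ≠ 0) ∨
    (∃ ρ : T.Rep X, T.Hodge ρ ∧ T.Inf ρ) ∨ T.Irr X ∨ T.Zero X ∧ ∃ ρ : T.Rep X, T.Inf ρ

section

variable (T : FourfoldTheory.{u}) {V : T.Cls}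

theorem kappa_reach {X X' : T.Model V} (h : ReflTransGen T.Step X X') :
    T.kappa X' = T.kappa X := by
  induction h with
  | refl => rfl
  | tail _ h ih => rw [T.kappa_step _ _ h, ih]

theorem pseff_reach {X X' : T.Model V} (h : ReflTransGen T.Step X X') (h' : T.Pseff X') :
    T.Pseff X := by
  induction h with
  | refl => exact h'
  | tail _ h ih => exact ih (T.pseff_step _ _ h h')

theorem reach (s : ℕ → T.Model V) (h : ∀ i, T.Step (s i) (s (i + 1))) (n : ℕ) :
    ReflTransGen T.Step (s 0) (s n) := by
  induction n with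
  | zero => exact ReflTransGen.refl
  | succ n ih => exact ih.tail (h n)

/-- If `π_1(X ∖ Δ)` has a linear representation with infinite image, and `Y_0 ⇢ Y_1 ⇢ ⋯` are flips
which are disjoint from the boundaries, after a run `X ⇢ Y_0`, then there is a rational map to a
variety of positive dimension which is defined near all the flipping loci and contracts all the
flipping rays. -/
theorem target {X : T.Model V} (hX : T.LogSmooth X) (ρ : T.Rep X) (hρ : T.Inf ρ)
    (Y : ℕ → T.Model V) (h0 : ReflTransGen T.Step X (Y 0)) (P : ℕ → T.flips.Pair)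
    (f : ∀ i, T.flips.Flip (P i) (P (i + 1))) (hf : ∀ i, T.Off (Y i) (Y (i + 1)) (f i)) :
    ∃ Ψ : T.Target V, ∀ i, T.Over Ψ (f i) := by
  obtain ⟨W0, hW0⟩ := T.braun X (Y 0) ρ hX hρ h0
  obtain ⟨W1, Ψ, hΨ⟩ := T.fibration (Y 0) W0 hW0
  have key : ∀ i, ∃ W : T.Res (Y i), T.Contracts W Ψ := by
    intro i
    induction i with
    | zero => exact ⟨W1, hΨ⟩
    | succ i ih =>
      obtain ⟨W, hW⟩ := ih
      exact T.common (Y i) (Y (i + 1)) W Ψ (f i) hW (hf i)
  refine ⟨Ψ, fun i => ?_⟩
  obtain ⟨W, hW⟩ := key i
  exact T.takayama (Y i) (Y (i + 1)) W Ψ (f i) hW (hf i)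

/-- no run from `X` is infinite -/
theorem terminates {X : T.Model V} (hd : T.dim V = 4) (hX : T.LogSmooth X) (h : CondA T X) :
    ¬ ∃ s : ℕ → T.Model V, s 0 = X ∧ ∀ i, T.Step (s i) (s (i + 1)) := by
  by_cases hp : T.Pseff X
  · exact T.moraga X hd hp
  by_cases ha : T.Anti X
  · exact T.ahk X hd ha
  by_cases hz : T.Zero X
  · exact T.kmm X hd hX hz
  rintro ⟨s, rfl, hs⟩
  obtain ⟨N, P, f, hf⟩ := T.special s hd hs
  have hΨ : ∃ Ψ : T.Target V, ∀ i, T.Over Ψ (f i) := by
    rcases h with h | h | h | ⟨ρ, hρ⟩ | ⟨μ, hμ, h1 | ⟨h1, h2⟩⟩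
    · exact absurd h hp
    · exact absurd h ha
    · exact absurd h hz
    · exact target T hX ρ hρ (fun i => s (N + i)) (reach T s hs N) P f hf
    · obtain ⟨ρ, hρ⟩ := T.orbifold _ μ hμ h1
      exact target T hX ρ hρ (fun i => s (N + i)) (reach T s hs N) P f hf
    · obtain ⟨Ψ, hΨ⟩ := T.kovacs _ μ hμ h1 h2
      exact ⟨Ψ, fun i => T.hacon_mckernan _ _ _ Ψ (f i) hΨ (reach T s hs (N + i)) (hf i)⟩
  obtain ⟨Ψ, hΨ⟩ := hΨ
  obtain ⟨L, hL⟩ := T.hyperplanes Ψ
  exact pencil T.flips P f L 0 fun i _ => hL (f i) (hΨ i)

/-- if `K_X + Δ` is pseudo-effective, condition (B) implies that it is numerically trivial, that its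
Kodaira dimension is at least one, or that some cover has positive irregularity -/
theorem kappa_or_irr {X : T.Model V} (hd : T.dim V = 4) (hX : T.LogSmooth X) (h : CondB T X)
    (hp : T.Pseff X) : T.Triv X ∨ 1 ≤ T.kappa X ∨ T.Irr X := by
  obtain ⟨W, F, b, hb, hF, hk, hv, hr, hz⟩ := T.core X hX
  have key : 1 ≤ b → 1 ≤ T.kappa X := fun h1 =>
    le_trans (by exact_mod_cast h1) (hk (T.nonvanishing F (by omega) (hF hp)))
  rcases h with h | h | h | ⟨μ, h1, h2⟩ | ⟨ρ, h1, h2⟩ | h | ⟨h, ρ, hρ⟩
  · exact absurd hp h
  · exact Or.inl (T.anti_pseff X h hp)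
  · exact Or.inr (Or.inl h)
  · exact Or.inr (Or.inl (key ((Nat.one_le_iff_ne_zero.2 h2).trans (hv μ h1))))
  · exact Or.inr (Or.inl (key (hr ρ h1 h2)))
  · exact Or.inr (Or.inr h)
  · exact Or.inr ((hz h ρ hρ).imp_left key)

end

/-- **Main theorem.** -/
theorem result (T : FourfoldTheory.{u}) {V : T.Cls} (X : T.Model V) (hd : T.dim V = 4)
    (hX : T.LogSmooth X) (hA : CondA T X) (hB : CondB T X) : Q1For T.toModuliTheory X := by
  intro μ hμ
  refine good_of_mmp T.toModuliTheory hμ ⟨terminates T hd hX hA, fun X' h1 h2 h3 => ?_⟩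
  have hnef : T.Nef X' := by
    by_contra h4
    rcases T.cone X' h4 with h5 | h5
    · exact h2 h5
    · exact h3 h5
  have hp := pseff_reach T h1 (T.nef_pseff X' hnef)
  rcases kappa_or_irr T hd hX hB hp with h | h | h
  · rcases h1.cases_head with rfl | ⟨X'', h4, -⟩
    · exact T.gongyo _ h
    · exact absurd h4 (T.triv_step X X'' h)
  · exact T.fukuda X' hd hnef (by rw [kappa_reach T h1]; exact h)
  · exact T.hu X X' hd hX h hp h1 hnef

end Pool.Agent.Results.MP_a9f86a_ag.MonodromyFourfolds
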