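import Mathlib

/-!
# MP_a9f86a_ag: moduli maps and the minimal model program, products and crepant covers

`ModuliMMP` records elementary facts about projective `ℚ`-factorial dlt pairs `(X, Δ)` with `Δ`
reduced, the steps of their minimal model programs and the moduli maps of smooth projective
families of canonically polarised manifolds. Everything else is proved here.
-/

set_option autoImplicit false

namespace Pool.Agent.Results.MP_a9f86a_ag.ProductsAndCovers

open Relation

universe u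

/-- Marked pairs, the steps of their minimal model programs, and moduli maps.

`V : Cls` is a function field (of an irreducible complex projective variety), `Model V` the type of
the projective `ℚ`-factorial dlt pairs `(X, Δ)`, `Δ` reduced, with function field `V`, `Fib V` the
type of the dominant rational maps `X ⇢ Z` with connected fibres, up to birational maps of `Z`, and
`Map V` the type of the rational maps from `X` to the coarse moduli scheme `𝔐` of canonically
polarised manifolds. -/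
structure ModuliMMP where
  Cls : Type u
  dim : Cls → ℕ
  Model : Cls → Type u
  Fib : Cls → Type u
  Map : Cls → Type u
  /-- `X` is smooth and `Δ` is a divisor with simple normal crossings -/
  LogSmooth : ∀ {V : Cls}, Model V → Prop
  /-- `X ⇢ X'` is the divisorial contraction or the flip of a `(K_X + Δ)`-negative extremal ray -/
  Step : ∀ {V : Cls}, Model V → Model V → Prop
  /-- `K_X + Δ` is nef -/
  Nef : ∀ {V : Cls}, Model V → Prop
  /-- `φ` is the contraction, of fibre type, of a `(K_X + Δ)`-negative extremal ray of `X` -/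
  Mori : ∀ {V : Cls}, Model V → Fib V → Prop
  /-- `K_X + Δ` is nef and semiample and `φ` is the fibration given by `|m (K_X + Δ)|` -/
  Kodaira : ∀ {V : Cls}, Model V → Fib V → Prop
  /-- `μ = ν ∘ φ` for some rational map `ν` from the target of `φ` to `𝔐` -/
  Factors : ∀ {V : Cls}, Map V → Fib V → Prop
  /-- the dimension of the image of `μ` -/
  var : ∀ {V : Cls}, Map V → ℕ
  /-- `(X, Δ)` is log smooth and `μ` is the moduli map of a smooth projective family of canonically
  polarised manifolds over `X ∖ Δ` -/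
  IsFam : ∀ {V : Cls}, Model V → Map V → Prop
  isFam_logSmooth : ∀ {V : Cls} (X : Model V) (μ : Map V), IsFam X μ → LogSmooth X
  step_nef : ∀ {V : Cls} (X X' : Model V), Step X X' → ¬ Nef X
  mori_nef : ∀ {V : Cls} (X : Model V) (φ : Fib V), Mori X φ → ¬ Nef X
  kodaira_nef : ∀ {V : Cls} (X : Model V) (φ : Fib V), Kodaira X φ → Nef X
  /-- cone theorem, contraction theorem and existence of flips -/
  cone : ∀ {V : Cls} (X : Model V), ¬ Nef X → (∃ X', Step X X') ∨ ∃ φ, Mori X φ
  /-- the moduli map of the constant family -/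
  cst : ∀ V : Cls, Map V
  cst_fam : ∀ {V : Cls} (X : Model V), LogSmooth X → IsFam X (cst V)
  /-- `V × W` -/
  mul : Cls → Cls → Cls
  dim_mul : ∀ V W : Cls, dim (mul V W) = dim V + dim W
  /-- `(X × Y, Δ_X × Y + X × Δ_Y)` -/
  prod : ∀ {V W : Cls}, Model V → Model W → Model (mul V W)
  logSmooth_prod : ∀ {V W : Cls} (X : Model V) (Y : Model W),
    LogSmooth (prod X Y) ↔ LogSmooth X ∧ LogSmooth Y
  /-- the birational steps of a product are the steps of the factors -/
  step_prod : ∀ {V W : Cls} (X : Model V) (Y : Model W) (Z : Model (mul V W)),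
    Step (prod X Y) Z ↔
      (∃ X', Step X X' ∧ Z = prod X' Y) ∨ ∃ Y', Step Y Y' ∧ Z = prod X Y'
  nef_prod : ∀ {V W : Cls} (X : Model V) (Y : Model W), Nef (prod X Y) ↔ Nef X ∧ Nef Y
  /-- the identity map -/
  one : ∀ V : Cls, Fib V
  /-- `φ × ψ` -/
  fprod : ∀ {V W : Cls}, Fib V → Fib W → Fib (mul V W)
  mori_prod : ∀ {V W : Cls} (X : Model V) (Y : Model W) (χ : Fib (mul V W)),
    Mori (prod X Y) χ ↔
      (∃ φ, Mori X φ ∧ χ = fprod φ (one W)) ∨ ∃ ψ, Mori Y ψ ∧ χ = fprod (one V) ψ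
  kodaira_prod : ∀ {V W : Cls} (X : Model V) (Y : Model W) (χ : Fib (mul V W)),
    Kodaira (prod X Y) χ ↔ ∃ φ ψ, Kodaira X φ ∧ Kodaira Y ψ ∧ χ = fprod φ ψ
  factors_fprod : ∀ {V W : Cls} (μ : Map (mul V W)) (φ : Fib V) (ψ : Fib W),
    Factors μ (fprod φ (one W)) → Factors μ (fprod (one V) ψ) → Factors μ (fprod φ ψ)
  /-- the moduli maps of the restrictions of a family over `(X × Y) ∖ Δ` to the subvarieties
  `(X ∖ Δ_X) × y`; `μ` factors through `φ × id` if all these restrictions factor through `φ` -/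
  restrictLeft : ∀ {V W : Cls} (X : Model V) (Y : Model W) (μ : Map (mul V W)),
    IsFam (prod X Y) μ → ∃ S : Set (Map V), (∀ ν ∈ S, IsFam X ν) ∧
      ∀ φ : Fib V, (∀ ν ∈ S, Factors ν φ) → Factors μ (fprod φ (one W))
  /-- the same for the subvarieties `x × (Y ∖ Δ_Y)` -/
  restrictRight : ∀ {V W : Cls} (X : Model V) (Y : Model W) (μ : Map (mul V W)),
    IsFam (prod X Y) μ → ∃ S : Set (Map W), (∀ ν ∈ S, IsFam Y ν) ∧
      ∀ ψ : Fib W, (∀ ν ∈ S, Factors ν ψ) → Factors μ (fprod (one V) ψ)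
  /-- the moduli map of the product `f × g` of two families `f` and `g` -/
  box : ∀ {V W : Cls}, Map V → Map W → Map (mul V W)
  box_fam : ∀ {V W : Cls} (X : Model V) (Y : Model W) (μ : Map V) (ν : Map W),
    IsFam X μ → IsFam Y ν → IsFam (prod X Y) (box μ ν)
  var_box : ∀ {V W : Cls} (X : Model V) (Y : Model W) (μ : Map V) (ν : Map W),
    IsFam X μ → IsFam Y ν → var (box μ ν) = var μ + var ν
  /-- if the moduli map of `f × g` factors through `φ × ψ`, then that of `f` factors through `φ` -/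
  factors_box : ∀ {V W : Cls} (X : Model V) (Y : Model W) (μ : Map V) (ν : Map W),
    IsFam X μ → IsFam Y ν → ∀ (φ : Fib V) (ψ : Fib W), Factors (box μ ν) (fprod φ ψ) →
      Factors μ φ
  /-- a smooth projective curve of genus at least two with a smooth projective family of curves of
  genus at least two which is not isotrivial (Kodaira) -/
  curve : ∃ (C : Cls) (X : Model C) (ν : Map C), dim C = 1 ∧ Nef X ∧ IsFam X ν ∧ var ν = 1
  /-- finite extensions `V ⊆ W` of function fields -/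
  Ext : Cls → Cls → Type u
  /-- the composition of a rational map with the generically finite map of `h` -/
  pull : ∀ {V W : Cls}, Ext V W → Map V → Map W
  /-- `h` is a morphism `Y → X` with `K_Y + Δ_Y = h^*(K_X + Δ_X)` -/
  Crepant : ∀ {V W : Cls}, Ext V W → Model V → Model W → Prop
  /-- moreover `Y` is log smooth and `Δ_Y` is the inverse image of `Δ_X` -/
  Cover : ∀ {V W : Cls}, Ext V W → Model V → Model W → Prop
  cover_crepant : ∀ {V W : Cls} (h : Ext V W) (X : Model V) (Y : Model W),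
    Cover h X Y → Crepant h X Y
  cover_fam : ∀ {V W : Cls} (h : Ext V W) (X : Model V) (Y : Model W) (μ : Map V),
    Cover h X Y → IsFam X μ → IsFam Y (pull h μ)
  nef_crepant : ∀ {V W : Cls} (h : Ext V W) (X : Model V) (Y : Model W),
    Crepant h X Y → (Nef X ↔ Nef Y)
  /-- a step of `X` lifts to a nonempty sequence of steps of `Y` -/
  step_crepant : ∀ {V W : Cls} (h : Ext V W) (X X' : Model V) (Y : Model W),
    Crepant h X Y → Step X X' → ∃ Y', TransGen Step Y Y' ∧ Crepant h X' Y'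
  /-- `K_X + Δ_X` is semiample if `K_Y + Δ_Y` is, and then the fibration of `Y` is the Stein
  factorization of `Y → X → Z` -/
  kodaira_crepant : ∀ {V W : Cls} (h : Ext V W) (X : Model V) (Y : Model W) (ψ : Fib W),
    Crepant h X Y → Kodaira Y ψ → ∃ φ, Kodaira X φ
  factors_crepant : ∀ {V W : Cls} (h : Ext V W) (X : Model V) (Y : Model W) (φ : Fib V)
    (ψ : Fib W) (μ : Map V), Crepant h X Y → Kodaira X φ → Kodaira Y ψ → Factors (pull h μ) ψ →
      Factors μ φ

variable (T : ModuliMMP.{u}) {V W : T.Cls}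

/-- there is a run of the minimal model program from `X` to `X'` -/
def Reach (X X' : T.Model V) : Prop := ReflTransGen T.Step X X'

/-- The conclusion of **Q1** for the pair `X` and the moduli map `μ`: no run is infinite; each run
can be continued, or its last pair is a Kodaira or a Mori fibre space; and the fibrations of all
Kodaira and Mori fibre spaces which are reached by runs factor `μ` birationally. -/
structure Good (μ : T.Map V) (X : T.Model V) : Prop where
  ends : ¬ ∃ s : ℕ → T.Model V, s 0 = X ∧ ∀ i, T.Step (s i) (s (i + 1))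
  last : ∀ X', Reach T X X' →
    (∃ X'', T.Step X' X'') ∨ (∃ φ, T.Kodaira X' φ) ∨ ∃ φ, T.Mori X' φ
  kodaira : ∀ X' φ, Reach T X X' → T.Kodaira X' φ → T.Factors μ φ
  mori : ∀ X' φ, Reach T X X' → T.Mori X' φ → T.Factors μ φ

/-- **Q1** for the compactified base `X = (Y, D)`: all families over `Y ∖ D`, all runs. -/
def Q1For (X : T.Model V) : Prop := ∀ μ : T.Map V, T.IsFam X μ → Good T μ X

/-- **Q1** for all families with variation `w` over bases of dimension `n` -/
def Q1Var (n w : ℕ) : Prop := ∀ (V : T.Cls) (X : T.Model V) (μ : T.Map V), T.dim V = n →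
  T.IsFam X μ → T.var μ = w → Good T μ X

/-- no run from `X` reaches a Mori fibre space (`K_X + Δ` is pseudo-effective) -/
def NoMori (X : T.Model V) : Prop := ∀ X' φ, Reach T X X' → ¬ T.Mori X' φ

/-- The bases obtained from a class of bases by products and by log étale, more generally crepant,
quotients with pseudo-effective `K + D`. -/
inductive Generated (Seed : ∀ V : T.Cls, T.Model V → Prop) : ∀ V : T.Cls, T.Model V → Prop
  | seed (V : T.Cls) (X : T.Model V) : Seed V X → Generated Seed V X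
  | prod (V W : T.Cls) (X : T.Model V) (Y : T.Model W) : T.LogSmooth X → T.LogSmooth Y →
      Generated Seed V X → Generated Seed W Y → Generated Seed (T.mul V W) (T.prod X Y)
  | cover (V W : T.Cls) (h : T.Ext V W) (X : T.Model V) (Y : T.Model W) : T.Cover h X Y →
      NoMori T X → Generated Seed W Y → Generated Seed V X

/-! ### Accessibility -/

theorem ends_iff (X : T.Model V) :
    (¬ ∃ s : ℕ → T.Model V, s 0 = X ∧ ∀ i, T.Step (s i) (s (i + 1))) ↔
      Acc (fun A B : T.Model V => T.Step B A) X := by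
  rw [← not_iff_not, not_not, not_acc_iff_exists_descending_chain]

theorem acc_prod (X : T.Model V) (Y : T.Model W)
    (hX : Acc (fun A B : T.Model V => T.Step B A) X)
    (hY : Acc (fun A B : T.Model W => T.Step B A) Y) :
    Acc (fun A B : T.Model (T.mul V W) => T.Step B A) (T.prod X Y) := by
  induction hX generalizing Y with
  | intro X hX' ihX =>
    induction hY with
    | intro Y hY' ihY =>
      refine ⟨_, fun Z hZ => ?_⟩
      rcases (T.step_prod X Y Z).1 hZ with ⟨X', h1, rfl⟩ | ⟨Y', h1, rfl⟩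
      · exact ihX X' h1 Y ⟨Y, hY'⟩
      · exact ihY Y' h1

theorem acc_left (X : T.Model V) (Y : T.Model W)
    (h : Acc (fun A B : T.Model (T.mul V W) => T.Step B A) (T.prod X Y)) :
    Acc (fun A B : T.Model V => T.Step B A) X := by
  have key : ∀ Z, Acc (fun A B : T.Model (T.mul V W) => T.Step B A) Z → ∀ X : T.Model V,
      Z = T.prod X Y → Acc (fun A B : T.Model V => T.Step B A) X := by
    intro Z hZ
    induction hZ with
    | intro Z _ ih =>
      rintro X rfl
      exact ⟨_, fun X' hX' => ih (T.prod X' Y) ((T.step_prod X Y _).2 (Or.inl ⟨X', hX', rfl⟩)) X' rfl⟩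
  exact key _ h X rfl

theorem reach_prod (X : T.Model V) (Y : T.Model W) (Z : T.Model (T.mul V W))
    (h : Reach T (T.prod X Y) Z) : ∃ X' Y', Reach T X X' ∧ Reach T Y Y' ∧ Z = T.prod X' Y' := by
  unfold Reach at h
  induction h with
  | refl => exact ⟨X, Y, ReflTransGen.refl, ReflTransGen.refl, rfl⟩
  | tail _ h ih =>
    obtain ⟨X', Y', h1, h2, rfl⟩ := ih
    rcases (T.step_prod X' Y' _).1 h with ⟨X'', h3, rfl⟩ | ⟨Y'', h3, rfl⟩
    · exact ⟨X'', Y', h1.tail h3, h2, rfl⟩
    · exact ⟨X', Y'', h1, h2.tail h3, rfl⟩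

theorem reach_left (X X' : T.Model V) (Y : T.Model W) (h : Reach T X X') :
    Reach T (T.prod X Y) (T.prod X' Y) := by
  unfold Reach at h ⊢
  induction h with
  | refl => exact ReflTransGen.refl
  | tail _ h ih => exact ih.tail ((T.step_prod _ Y _).2 (Or.inl ⟨_, h, rfl⟩))

theorem reach_right (X : T.Model V) (Y Y' : T.Model W) (h : Reach T Y Y') :
    Reach T (T.prod X Y) (T.prod X Y') := by
  unfold Reach at h ⊢
  induction h with
  | refl => exact ReflTransGen.refl
  | tail _ h ih => exact ih.tail ((T.step_prod X _ _).2 (Or.inr ⟨_, h, rfl⟩))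

/-! ### Products -/

theorem q1_prod (X : T.Model V) (Y : T.Model W) (lX : T.LogSmooth X) (lY : T.LogSmooth Y)
    (hX : Q1For T X) (hY : Q1For T Y) : Q1For T (T.prod X Y) := by
  intro μ hμ
  have gX := hX (T.cst V) (T.cst_fam X lX)
  have gY := hY (T.cst W) (T.cst_fam Y lY)
  obtain ⟨S, hS1, hS2⟩ := T.restrictLeft X Y μ hμ
  obtain ⟨R, hR1, hR2⟩ := T.restrictRight X Y μ hμ
  refine ⟨?_, ?_, ?_, ?_⟩
  · exact (ends_iff T _).2 (acc_prod T X Y ((ends_iff T X).1 gX.ends) ((ends_iff T Y).1 gY.ends))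
  · intro Z hZ
    obtain ⟨X', Y', h1, h2, rfl⟩ := reach_prod T X Y Z hZ
    rcases gX.last X' h1 with ⟨X'', h3⟩ | ⟨φ, h3⟩ | ⟨φ, h3⟩
    · exact Or.inl ⟨_, (T.step_prod X' Y' _).2 (Or.inl ⟨X'', h3, rfl⟩)⟩
    · rcases gY.last Y' h2 with ⟨Y'', h4⟩ | ⟨ψ, h4⟩ | ⟨ψ, h4⟩
      · exact Or.inl ⟨_, (T.step_prod X' Y' _).2 (Or.inr ⟨Y'', h4, rfl⟩)⟩
      · exact Or.inr (Or.inl ⟨_, (T.kodaira_prod X' Y' _).2 ⟨φ, ψ, h3, h4, rfl⟩⟩)
      · exact Or.inr (Or.inr ⟨_, (T.mori_prod X' Y' _).2 (Or.inr ⟨ψ, h4, rfl⟩)⟩)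
    · exact Or.inr (Or.inr ⟨_, (T.mori_prod X' Y' _).2 (Or.inl ⟨φ, h3, rfl⟩)⟩)
  · intro Z χ hZ hχ
    obtain ⟨X', Y', h1, h2, rfl⟩ := reach_prod T X Y Z hZ
    obtain ⟨φ, ψ, h3, h4, rfl⟩ := (T.kodaira_prod X' Y' χ).1 hχ
    exact T.factors_fprod μ φ ψ
      (hS2 φ fun ν hν => (hX ν (hS1 ν hν)).kodaira X' φ h1 h3)
      (hR2 ψ fun ν hν => (hY ν (hR1 ν hν)).kodaira Y' ψ h2 h4)
  · intro Z χ hZ hχ
    obtain ⟨X', Y', h1, h2, rfl⟩ := reach_prod T X Y Z hZ
    rcases (T.mori_prod X' Y' χ).1 hχ with ⟨φ, h3, rfl⟩ | ⟨ψ, h3, rfl⟩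
    · exact hS2 φ fun ν hν => (hX ν (hS1 ν hν)).mori X' φ h1 h3
    · exact hR2 ψ fun ν hν => (hY ν (hR1 ν hν)).mori Y' ψ h2 h3

theorem good_of_box (X : T.Model V) (Y Y' : T.Model W) (μ : T.Map V) (ν : T.Map W)
    (hμ : T.IsFam X μ) (hν : T.IsFam Y ν) (hY : Reach T Y Y') (nY : T.Nef Y')
    (h : Good T (T.box μ ν) (T.prod X Y)) : Good T μ X := by
  have hlast : ∀ X', Reach T X X' → (∃ X'', T.Step X' X'') ∨
      (∃ φ ψ, T.Kodaira X' φ ∧ T.Kodaira Y' ψ) ∨ ∃ φ, T.Mori X' φ := by
    intro X' h1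
    have h2 : Reach T (T.prod X Y) (T.prod X' Y') :=
      ReflTransGen.trans (reach_left T X X' Y h1) (reach_right T X' Y Y' hY)
    rcases h.last _ h2 with ⟨Z, h3⟩ | ⟨χ, h3⟩ | ⟨χ, h3⟩
    · rcases (T.step_prod X' Y' Z).1 h3 with ⟨X'', h4, -⟩ | ⟨Y'', h4, -⟩
      · exact Or.inl ⟨X'', h4⟩
      · exact absurd nY (T.step_nef _ _ h4)
    · obtain ⟨φ, ψ, h4, h5, -⟩ := (T.kodaira_prod X' Y' χ).1 h3
      exact Or.inr (Or.inl ⟨φ, ψ, h4, h5⟩)
    · rcases (T.mori_prod X' Y' χ).1 h3 with ⟨φ, h4, -⟩ | ⟨ψ, h4, -⟩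
      · exact Or.inr (Or.inr ⟨φ, h4⟩)
      · exact absurd nY (T.mori_nef _ _ h4)
  refine ⟨(ends_iff T X).2 (acc_left T X Y ((ends_iff T _).1 h.ends)), ?_, ?_, ?_⟩
  · intro X' h1
    rcases hlast X' h1 with h2 | ⟨φ, -, h2, -⟩ | h2
    · exact Or.inl h2
    · exact Or.inr (Or.inl ⟨φ, h2⟩)
    · exact Or.inr (Or.inr h2)
  · intro X' φ h1 h2
    have nX := T.kodaira_nef X' φ h2
    rcases hlast X' h1 with ⟨X'', h3⟩ | ⟨-, ψ, -, h3⟩ | ⟨χ, h3⟩
    · exact absurd nX (T.step_nef _ _ h3)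
    · refine T.factors_box X Y μ ν hμ hν φ ψ (h.kodaira (T.prod X' Y') _ ?_ ?_)
      · exact ReflTransGen.trans (reach_left T X X' Y h1) (reach_right T X' Y Y' hY)
      · exact (T.kodaira_prod X' Y' _).2 ⟨φ, ψ, h2, h3, rfl⟩
    · exact absurd nX (T.mori_nef _ _ h3)
  · intro X' φ h1 h2
    exact T.factors_box X Y μ ν hμ hν φ (T.one W) (h.mori (T.prod X' Y) _ (reach_left T X X' Y h1)
      ((T.mori_prod X' Y _).2 (Or.inl ⟨φ, h2, rfl⟩)))

theorem q1_var (n w : ℕ) : ∀ v : ℕ, Q1Var T (n + v) (w + v) → Q1Var T n w := by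
  intro v
  induction v with
  | zero => exact fun h => h
  | succ v ih =>
    intro h
    refine ih fun V X μ hd hμ hv => ?_
    obtain ⟨C, Y, ν, c1, c2, c3, c4⟩ := T.curve
    refine good_of_box T X Y Y μ ν hμ c3 ReflTransGen.refl c2 (h _ _ _ ?_ (T.box_fam X Y μ ν hμ c3) ?_)
    · rw [T.dim_mul, hd, c1]
      rfl
    · rw [T.var_box X Y μ ν hμ c3, hv, c4]
      rfl

/-! ### Covers -/

theorem swap_transGen {α : Type u} {r : α → α → Prop} {x y : α} (h : TransGen r x y) :
    TransGen (fun A B => r B A) y x := by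
  induction h with
  | single h => exact TransGen.single h
  | tail _ h ih => exact TransGen.head h ih

theorem acc_crepant (h : T.Ext V W) (X : T.Model V) (Y : T.Model W) (hc : T.Crepant h X Y)
    (hY : Acc (fun A B : T.Model W => T.Step B A) Y) :
    Acc (fun A B : T.Model V => T.Step B A) X := by
  have key : ∀ Y, Acc (TransGen fun A B : T.Model W => T.Step B A) Y →
      ∀ X, T.Crepant h X Y → Acc (fun A B : T.Model V => T.Step B A) X := by
    intro Y hY
    induction hY with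
    | intro Y _ ih =>
      intro X hc
      refine ⟨_, fun X' hX' => ?_⟩
      obtain ⟨Y', h1, h2⟩ := T.step_crepant h X X' Y hc hX'
      exact ih Y' (swap_transGen h1) X' h2
  exact key Y hY.transGen X hc

theorem reach_crepant (h : T.Ext V W) (X X' : T.Model V) (Y : T.Model W) (hc : T.Crepant h X Y)
    (hX : Reach T X X') : ∃ Y', Reach T Y Y' ∧ T.Crepant h X' Y' := by
  unfold Reach at hX ⊢
  induction hX with
  | refl => exact ⟨Y, ReflTransGen.refl, hc⟩
  | tail _ h1 ih =>
    obtain ⟨Y', h2, h3⟩ := ih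
    obtain ⟨Y'', h4, h5⟩ := T.step_crepant h _ _ Y' h3 h1
    exact ⟨Y'', h2.trans h4.to_reflTransGen, h5⟩

theorem q1_cover (h : T.Ext V W) (X : T.Model V) (Y : T.Model W) (hc : T.Cover h X Y)
    (hm : NoMori T X) (hY : Q1For T Y) : Q1For T X := by
  intro μ hμ
  have gY := hY _ (T.cover_fam h X Y μ hc hμ)
  have hcr := T.cover_crepant h X Y hc
  have hkod : ∀ X' Y', Reach T Y Y' → T.Crepant h X' Y' → T.Nef X' → ∃ ψ, T.Kodaira Y' ψ := by
    intro X' Y' h1 h2 h3
    have h4 := (T.nef_crepant h X' Y' h2).1 h3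
    rcases gY.last Y' h1 with ⟨Y'', h5⟩ | h5 | ⟨ψ, h5⟩
    · exact absurd h4 (T.step_nef _ _ h5)
    · exact h5
    · exact absurd h4 (T.mori_nef _ _ h5)
  refine ⟨(ends_iff T X).2 (acc_crepant T h X Y hcr ((ends_iff T Y).1 gY.ends)), ?_, ?_, ?_⟩
  · intro X' h1
    by_cases h2 : T.Nef X'
    · obtain ⟨Y', h3, h4⟩ := reach_crepant T h X X' Y hcr h1
      obtain ⟨ψ, h5⟩ := hkod X' Y' h3 h4 h2
      exact Or.inr (Or.inl (T.kodaira_crepant h X' Y' ψ h4 h5))
    · rcases T.cone X' h2 with h3 | h3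
      · exact Or.inl h3
      · exact Or.inr (Or.inr h3)
  · intro X' φ h1 h2
    obtain ⟨Y', h3, h4⟩ := reach_crepant T h X X' Y hcr h1
    obtain ⟨ψ, h5⟩ := hkod X' Y' h3 h4 (T.kodaira_nef X' φ h2)
    exact T.factors_crepant h X' Y' φ ψ μ h4 h2 h5 (gY.kodaira Y' ψ h3 h5)
  · intro X' φ h1 h2
    exact absurd h2 (hm X' φ h1)

theorem q1_generated (Seed : ∀ V : T.Cls, T.Model V → Prop)
    (hS : ∀ (V : T.Cls) (X : T.Model V), Seed V X → Q1For T X) (V : T.Cls) (X : T.Model V)
    (h : Generated T Seed V X) : Q1For T X := by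
  induction h with
  | seed V X h => exact hS V X h
  | prod V W X Y lX lY _ _ ih1 ih2 => exact q1_prod T X Y lX lY ih1 ih2
  | cover V W h X Y hc hm _ ih => exact q1_cover T h X Y hc hm ih

/-- **Main theorem.** -/
theorem result (T : ModuliMMP.{u}) :
    (∀ Seed : ∀ V : T.Cls, T.Model V → Prop,
      (∀ (V : T.Cls) (X : T.Model V), Seed V X → Q1For T X) →
      ∀ (V : T.Cls) (X : T.Model V), Generated T Seed V X → Q1For T X) ∧
    (∀ (V W : T.Cls) (X : T.Model V) (Y : T.Model W), T.LogSmooth X → T.LogSmooth Y →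
      Q1For T Y → (∃ Y', Reach T Y Y' ∧ T.Nef Y') → (Q1For T (T.prod X Y) ↔ Q1For T X)) ∧
    (∀ n w v : ℕ, Q1Var T (n + v) (w + v) → Q1Var T n w) ∧
    (∀ v : ℕ, (∀ n w : ℕ, v ≤ w → Q1Var T n w) ↔ ∀ n w : ℕ, Q1Var T n w) := by
  refine ⟨fun Seed hS V X h => q1_generated T Seed hS V X h, ?_, fun n w v => q1_var T n w v,
    fun v => ⟨fun h n w => q1_var T n w v (h _ _ (Nat.le_add_left v w)), fun h n w _ => h n w⟩⟩
  rintro V W X Y lX lY hY ⟨Y', h1, h2⟩
  refine ⟨fun h μ hμ => ?_, fun h => q1_prod T X Y lX lY h hY⟩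
  have hc := T.cst_fam Y lY
  exact good_of_box T X Y Y' μ _ hμ hc h1 h2 (h _ (T.box_fam X Y μ _ hμ hc))

end Pool.Agent.Results.MP_a9f86a_ag.ProductsAndCovers
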