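import Pool.Agent.Results.MP_a9f86a_ag.ModuliFactoring

/-!
# MP_a9f86a_ag: bases with compactifications of Picard number at most two, and Mori dream spaces

`RayTheory` adds to the `ModuliTheory` of `ModuliFactoring` facts about the extremal rays of projective
`ℚ`-factorial dlt pairs: elementary ones, and theorems of Birkar, Cascini, Hacon and McKernan, of Birkar,
and of Hu and Keel. Everything else is proved here.
-/

set_option autoImplicit false

namespace Pool.Agent.Results.MP_a9f86a_ag.SmallPicard

open Relation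
open Pool.Agent.Results.MP_a9f86a_ag.ModuliFactoring

universe u

/-- Facts about the extremal rays of projective `ℚ`-factorial dlt pairs `(X, Δ)`, `Δ` reduced. -/
structure RayTheory extends ModuliTheory.{u} where
  /-- the Picard number of `X` -/
  rho : ∀ {V : Cls}, Model V → ℕ
  /-- `K_X + Δ` is pseudo-effective -/
  Pseff : ∀ {V : Cls}, Model V → Prop
  /-- `(X, Δ)` has a good minimal model -/
  GoodMin : ∀ {V : Cls}, Model V → Prop
  /-- `X` is a Mori dream space -/
  Dream : ∀ {V : Cls}, Model V → Prop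
  /-- the extremal rays of the closed cone of curves of `X` -/
  Ray : ∀ {V : Cls}, Model V → Type u
  /-- `R` is `(K_X + Δ)`-negative -/
  Neg : ∀ {V : Cls} {X : Model V}, Ray X → Prop
  /-- `X ⇢ X'` is the divisorial contraction of `R` -/
  DivC : ∀ {V : Cls} {X : Model V}, Ray X → Model V → Prop
  /-- `X ⇢ X'` is the flip of `R` -/
  Flip : ∀ {V : Cls} {X : Model V}, Ray X → Model V → Prop
  /-- the contraction of `R` is of fibre type and is `φ` -/
  FibC : ∀ {V : Cls} {X : Model V}, Ray X → Fib V → Prop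
  step_iff : ∀ {V : Cls} (X X' : Model V), Step X X' ↔ ∃ R : Ray X, Neg R ∧ (DivC R X' ∨ Flip R X')
  mori_iff : ∀ {V : Cls} (X : Model V) (φ : Fib V), Mori X φ ↔ ∃ R : Ray X, Neg R ∧ FibC R φ
  /-- the contraction and the flip of a ray are unique -/
  unique : ∀ {V : Cls} {X : Model V} (R : Ray X) (X' X'' : Model V), DivC R X' ∨ Flip R X' →
    DivC R X'' ∨ Flip R X'' → X' = X''
  not_fib : ∀ {V : Cls} {X : Model V} (R : Ray X) (X' : Model V) (φ : Fib V),
    DivC R X' ∨ Flip R X' → ¬ FibC R φ
  nef_neg : ∀ {V : Cls} {X : Model V} (R : Ray X), Nef X → ¬ Neg R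
  rho_flip : ∀ {V : Cls} {X : Model V} (R : Ray X) (X' : Model V), Flip R X' → rho X' = rho X
  rho_div : ∀ {V : Cls} {X : Model V} (R : Ray X) (X' : Model V), DivC R X' → rho X' + 1 = rho X
  /-- a cone in a plane has at most two extremal rays -/
  two_rays : ∀ {V : Cls} {X : Model V}, rho X ≤ 2 → ∀ R S T : Ray X, R = S ∨ S = T ∨ R = T
  /-- for Picard number one the contraction is the map to a point -/
  rho_one : ∀ {V : Cls} {X : Model V}, rho X ≤ 1 → ∀ (R : Ray X) (X' : Model V),
    ¬ DivC R X' ∧ ¬ Flip R X'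
  /-- the flipped curves span a `(K + Δ)`-positive ray -/
  flip_pos : ∀ {V : Cls} {X : Model V} (R : Ray X) (X' : Model V), Neg R → Flip R X' →
    ∃ R' : Ray X', ¬ Neg R'
  /-- negativity lemma: discrepancies increase -/
  acyclic : ∀ {V : Cls} (X : Model V), ¬ TransGen Step X X
  pseff_step : ∀ {V : Cls} (X X' : Model V), Step X X' → (Pseff X' ↔ Pseff X)
  nef_pseff : ∀ {V : Cls} (X : Model V), Nef X → Pseff X
  mori_pseff : ∀ {V : Cls} (X : Model V) (φ : Fib V), Mori X φ → ¬ Pseff X
  /-- Every `(K_X + Δ)`-negative extremal ray is the first one of a run with scaling of an ample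
  divisor. It ends, with a Mori fibre space or with `K + Δ` nef, if `K_X + Δ` is not pseudo-effective
  (Birkar, Cascini, Hacon and McKernan) or has a minimal model (Birkar, 2012). -/
  scaling : ∀ {V : Cls} (X X' : Model V), Step X X' → ¬ Pseff X ∨ GoodMin X →
    ∃ X'', ReflTransGen Step X' X'' ∧ ((∃ φ, Mori X'' φ) ∨ Nef X'')
  /-- the end of a run with `K + Δ` nef and semiample is a good minimal model -/
  goodMin_run : ∀ {V : Cls} (X X' : Model V) (φ : Fib V), ReflTransGen Step X X' → Kodaira X' φ →
    GoodMin X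
  /-- if one minimal model is good, all are -/
  goodMin_nef : ∀ {V : Cls} (X X' : Model V), GoodMin X → ReflTransGen Step X X' → Nef X' →
    ∃ φ, Kodaira X' φ
  /-- Hu and Keel (2000): divisorial contractions and flips of Mori dream spaces are Mori dream
  spaces -/
  dream_step : ∀ {V : Cls} (X X' : Model V), Dream X → Step X X' → Dream X'
  /-- Hu and Keel: there are finitely many small modifications -/
  dream_finite : ∀ {V : Cls} (X : Model V), Dream X →
    {X' | ReflTransGen (fun A B => ∃ R : Ray A, Neg R ∧ Flip R B) X X'}.Finite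
  /-- Hu and Keel: nef divisors are semiample -/
  dream_nef : ∀ {V : Cls} (X : Model V), Dream X → Nef X → ∃ φ, Kodaira X φ

variable (T : RayTheory.{u}) {V : T.Cls}

theorem pseff_run {X X' : T.Model V} (h : ReflTransGen T.Step X X') : T.Pseff X' ↔ T.Pseff X := by
  induction h with
  | refl => exact Iff.rfl
  | tail _ h ih => exact (T.pseff_step _ _ h).trans ih

theorem dream_run {X X' : T.Model V} (hX : T.Dream X) (h : ReflTransGen T.Step X X') : T.Dream X' := by
  induction h with
  | refl => exact hX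
  | tail _ h ih => exact T.dream_step _ _ ih h

theorem rho_step {X X' : T.Model V} (h : T.Step X X') : T.rho X' ≤ T.rho X := by
  obtain ⟨R, _, h | h⟩ := (T.step_iff X X').1 h
  · have := T.rho_div R X' h
    omega
  · exact (T.rho_flip R X' h).le

theorem reach_seq {s : ℕ → T.Model V} (hs : ∀ i, T.Step (s i) (s (i + 1))) (i j : ℕ) (hij : i < j) :
    TransGen T.Step (s i) (s j) := by
  induction j with
  | zero => omega
  | succ j ih =>
    rcases Nat.lt_or_ge i j with h | h
    · exact (ih h).tail (hs j)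
    · have : i = j := by omega
      subst this
      exact TransGen.single (hs i)

/-- Picard number two: every run is determined by its first step. -/
theorem termination_two {X : T.Model V} (hX : T.rho X ≤ 2) (h : ¬ T.Pseff X ∨ T.GoodMin X) :
    ¬ ∃ s : ℕ → T.Model V, s 0 = X ∧ ∀ i, T.Step (s i) (s (i + 1)) := by
  rintro ⟨s, h0, hs⟩
  have hrho : ∀ i, T.rho (s i) ≤ 2 := by
    intro i
    induction i with
    | zero => rw [h0]; exact hX
    | succ i ih => exact (rho_step T (hs i)).trans ih
  have hflip : ∀ i, ∃ R : T.Ray (s i), T.Neg R ∧ T.Flip R (s (i + 1)) := by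
    intro i
    obtain ⟨R, hR, h1 | h1⟩ := (T.step_iff _ _).1 (hs i)
    · exfalso
      have h2 := T.rho_div R _ h1
      obtain ⟨S, _, h3⟩ := (T.step_iff _ _).1 (hs (i + 1))
      have h4 := T.rho_one (by have := hrho i; omega) S (s (i + 1 + 1))
      rcases h3 with h3 | h3
      · exact h4.1 h3
      · exact h4.2 h3
    · exact ⟨R, hR, h1⟩
  have hone : ∀ i, ∀ R S : T.Ray (s (i + 1)), T.Neg R → T.Neg S → R = S := by
    intro i R S hR hS
    obtain ⟨Q, hQ, hQf⟩ := hflip i
    obtain ⟨P, hP⟩ := T.flip_pos Q _ hQ hQf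
    rcases T.two_rays (hrho (i + 1)) R S P with h1 | h1 | h1
    · exact h1
    · exact absurd (h1 ▸ hS) hP
    · exact absurd (h1 ▸ hR) hP
  have hdet : ∀ i Y, T.Step (s (i + 1)) Y → Y = s (i + 1 + 1) := by
    intro i Y hY
    obtain ⟨R, hR, h1⟩ := (T.step_iff _ _).1 hY
    obtain ⟨S, hS, h2⟩ := (T.step_iff _ _).1 (hs (i + 1))
    have h3 := hone i R S hR hS
    subst h3
    exact T.unique R _ _ h1 h2
  have h01 : T.Step X (s 1) := by
    have := hs 0
    rwa [h0] at this
  obtain ⟨Z, hZ, hend⟩ := T.scaling X (s 1) h01 h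
  have hkey : ∀ W, ReflTransGen T.Step (s 1) W → ∃ i, W = s (i + 1) := by
    intro W hW
    induction hW with
    | refl => exact ⟨0, rfl⟩
    | tail _ h1 ih =>
      obtain ⟨i, rfl⟩ := ih
      exact ⟨i + 1, hdet i _ h1⟩
  obtain ⟨i, rfl⟩ := hkey Z hZ
  obtain ⟨S, hS, h2⟩ := (T.step_iff _ _).1 (hs (i + 1))
  rcases hend with ⟨φ, hφ⟩ | hnef
  · obtain ⟨R, hR, h3⟩ := (T.mori_iff _ _).1 hφ
    have h4 := hone i R S hR hS
    subst h4
    exact T.not_fib R _ _ h2 h3
  · exact T.nef_neg S hnef hS

/-- Mori dream spaces. -/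
theorem termination_dream {X : T.Model V} (hX : T.Dream X) :
    ¬ ∃ s : ℕ → T.Model V, s 0 = X ∧ ∀ i, T.Step (s i) (s (i + 1)) := by
  rintro ⟨s, h0, hs⟩
  have hmin : ∃ i, ∀ j, T.rho (s i) ≤ T.rho (s j) := by
    have hne : (Set.range fun i => T.rho (s i)).Nonempty := ⟨_, 0, rfl⟩
    obtain ⟨i, hi⟩ := Nat.sInf_mem hne
    refine ⟨i, fun j => ?_⟩
    have h1 : sInf (Set.range fun i => T.rho (s i)) ≤ T.rho (s j) := Nat.sInf_le ⟨j, rfl⟩
    have h2 : T.rho (s i) = sInf (Set.range fun i => T.rho (s i)) := hi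
    omega
  obtain ⟨i, hi⟩ := hmin
  have hmono : ∀ j, T.rho (s (i + j)) = T.rho (s i) := by
    intro j
    induction j with
    | zero => rfl
    | succ j ih =>
      have h1 := rho_step T (hs (i + j))
      have h2 := hi (i + (j + 1))
      have h3 : i + (j + 1) = i + j + 1 := rfl
      rw [h3] at h2 ⊢
      omega
  have hflip : ∀ j, ∃ R : T.Ray (s (i + j)), T.Neg R ∧ T.Flip R (s (i + j + 1)) := by
    intro j
    obtain ⟨R, hR, h1 | h1⟩ := (T.step_iff _ _).1 (hs (i + j))
    · exfalso
      have h2 := T.rho_div R _ h1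
      have h3 := hmono j
      have h4 : T.rho (s (i + j + 1)) = T.rho (s i) := hmono (j + 1)
      omega
    · exact ⟨R, hR, h1⟩
  have hdream : T.Dream (s i) := by
    rcases Nat.eq_zero_or_pos i with h | h
    · rw [h, h0]; exact hX
    · have := (reach_seq T hs 0 i h).to_reflTransGen
      rw [h0] at this
      exact dream_run T hX this
  have hmem : ∀ j, s (i + j) ∈ {X' | ReflTransGen (fun A B => ∃ R : T.Ray A, T.Neg R ∧ T.Flip R B) (s i) X'} := by
    intro j
    induction j with
    | zero => exact ReflTransGen.refl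
    | succ j ih => exact ReflTransGen.tail ih (hflip j)
  have hfin := T.dream_finite (s i) hdream
  have hninj : ¬ Function.Injective fun j : ℕ => s (i + j) := by
    intro hinj
    exact Set.infinite_of_injective_forall_mem hinj hmem hfin
  apply hninj
  intro a b hab
  by_contra hne
  have hab' : s (i + a) = s (i + b) := hab
  rcases lt_or_gt_of_ne hne with h | h
  · have h1 := reach_seq T hs (i + a) (i + b) (by omega)
    rw [hab'] at h1
    exact T.acyclic _ h1
  · have h1 := reach_seq T hs (i + b) (i + a) (by omega)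
    rw [hab'] at h1
    exact T.acyclic _ h1

/-- a run which cannot be continued -/
theorem exists_end {X : T.Model V}
    (h : ¬ ∃ s : ℕ → T.Model V, s 0 = X ∧ ∀ i, T.Step (s i) (s (i + 1))) :
    ∃ X', ReflTransGen T.Step X X' ∧ ¬ ∃ X'', T.Step X' X'' := by
  by_contra hcon
  push Not at hcon
  apply h
  choose F hF using hcon
  let St := {X' : T.Model V // ReflTransGen T.Step X X'}
  let G : St → St := fun p => ⟨F p.1 p.2, p.2.tail (hF p.1 p.2)⟩
  refine ⟨fun i => (G^[i] ⟨X, ReflTransGen.refl⟩).1, rfl, fun i => ?_⟩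
  show T.Step _ (G^[i + 1] ⟨X, ReflTransGen.refl⟩).1
  rw [Function.iterate_succ_apply']
  exact hF _ _

/-- **Main theorem.** `X = (Y, D)` log smooth of any dimension, `Y` a Mori dream space or of Picard number
at most two: **Q1** holds for all families over `Y ∖ D` and all runs if and only if `K_Y + D` is not
pseudo-effective, or `Y` is a Mori dream space, or `(Y, D)` has a good minimal model. -/
theorem result :
    ∀ (T : RayTheory.{u}) (V : T.Cls) (X : T.Model V), T.LogSmooth X → T.Dream X ∨ T.rho X ≤ 2 →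
      (Q1For T.toModuliTheory X ↔ (T.Pseff X → T.Dream X ∨ T.GoodMin X)) := by
  intro T V X hls hX
  constructor
  · intro hQ hP
    have hG := hQ (T.cst V) (T.cst_fam X hls)
    obtain ⟨X', hr, hend⟩ := exists_end T hG.ends
    rcases hG.last X' hr with h1 | ⟨φ, h1⟩ | ⟨φ, h1⟩
    · exact absurd h1 hend
    · exact Or.inr (T.goodMin_run X X' φ hr h1)
    · exact absurd ((pseff_run T hr).2 hP) (T.mori_pseff X' φ h1)
  · intro h μ hμ
    refine good_of_mmp T.toModuliTheory hμ ?_
    have hnef : ∀ X' : T.Model V, (¬ ∃ X'', T.Step X' X'') → (¬ ∃ φ, T.Mori X' φ) → T.Nef X' := by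
      intro X' h2 h3
      by_contra h4
      rcases T.cone X' h4 with h5 | h5
      · exact h2 h5
      · exact h3 h5
    by_cases hD : T.Dream X
    · exact ⟨termination_dream T hD, fun X' h1 h2 h3 => T.dream_nef X' (dream_run T hD h1) (hnef X' h2 h3)⟩
    · have hr : T.rho X ≤ 2 := hX.resolve_left hD
      have h' : ¬ T.Pseff X ∨ T.GoodMin X := by
        by_cases hP : T.Pseff X
        · exact Or.inr ((h hP).resolve_left hD)
        · exact Or.inl hP
      refine ⟨termination_two T hr h', fun X' h1 h2 h3 => ?_⟩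
      have h4 := hnef X' h2 h3
      rcases h' with h5 | h5
      · exact absurd ((pseff_run T h1).1 (T.nef_pseff X' h4)) h5
      · exact T.goodMin_nef X X' h5 h1 h4

end Pool.Agent.Results.MP_a9f86a_ag.SmallPicard
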